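import Mathlib
import Pool.Agent.Lib_helper3.UPD.Final

/-!
# Antichains of the Collatz order

No element of an antichain lies on the trajectory (under the shortcut map) of another one. The
predecessor sets of the elements of an antichain are pairwise disjoint, and the predecessor set of
`s`, `3 ∤ s`, has lower density at least `c / s`. So the sum of the reciprocals is bounded.
-/

set_option autoImplicit false

namespace GEN

open Finset Filter Topology Pool.Agent.LibHelper3

/-- the trajectory of the Collatz map, in terms of the trajectory of the shortcut map -/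
theorem short_or (n j : ℕ) : (∃ i, short^[i] n = collatz^[j] n) ∨
    (∃ i, collatz^[j] n % 2 = 0 ∧ short^[i] n = collatz^[j] n / 2) := by
  induction j with
  | zero => left; exact ⟨0, rfl⟩
  | succ j ih =>
    rw [Function.iterate_succ_apply']
    generalize collatz^[j] n = y at ih
    rcases ih with ⟨i, hi⟩ | ⟨i, he, hi⟩
    · by_cases h : y % 2 = 0
      · left
        refine ⟨i + 1, ?_⟩
        rw [Function.iterate_succ_apply', hi]
        simp only [short, collatz, h, if_true]
      · right
        refine ⟨i + 1, ?_, ?_⟩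
        · simp only [collatz, h, if_false]
          omega
        · rw [Function.iterate_succ_apply', hi]
          simp only [short, collatz, h, if_false]
    · left
      refine ⟨i, ?_⟩
      rw [hi]
      simp only [collatz, he, if_true]

theorem short_of_collatz_two {n s j : ℕ} (h : collatz^[j] n = 2 * s) : ∃ k, short^[k] n = s := by
  rcases short_or n j with ⟨i, hi⟩ | ⟨i, _, hi⟩
  · refine ⟨i + 1, ?_⟩
    rw [Function.iterate_succ_apply', hi, h]
    have h2 : 2 * s % 2 = 0 := by omega
    simp only [short, h2, if_true]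
    omega
  · refine ⟨i, ?_⟩
    rw [hi, h]
    omega

/-- two elements of one trajectory are comparable -/
theorem comparable {n s t i j : ℕ} (hi : short^[i] n = s) (hj : short^[j] n = t) :
    (∃ k, short^[k] s = t) ∨ (∃ k, short^[k] t = s) := by
  rcases le_total i j with h | h
  · left
    refine ⟨j - i, ?_⟩
    rw [← hi, ← Function.iterate_add_apply, Nat.sub_add_cancel h, hj]
  · right
    refine ⟨i - j, ?_⟩
    rw [← hj, ← Function.iterate_add_apply, Nat.sub_add_cancel h, hi]

/-- **Antichains.** -/
theorem antichain : ∃ C : ℝ, 0 ≤ C ∧ ∀ A : Finset ℕ, (∀ s ∈ A, ¬ 3 ∣ s) →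
    (∀ s ∈ A, ∀ t ∈ A, s ≠ t → ∀ k, short^[k] s ≠ t) → ∑ s ∈ A, (1 : ℝ) / s ≤ C := by
  obtain ⟨c, hc, h⟩ := UPD.uniform_density
  choose δ h0 h1 h2 using h
  refine ⟨2 / c, by positivity, fun A hA hanti => ?_⟩
  have key : ∑ s ∈ A, δ (2 * s) ≤ 1 := by
    have hlim := tendsto_finsetSum A fun s _ => h2 (2 * s)
    refine le_of_tendsto' hlim fun x => ?_
    rw [← sum_div]
    rcases Nat.eq_zero_or_pos x with hx | hx
    · subst hx
      simp
    have hx0 : (0 : ℝ) < x := by exact_mod_cast hx
    rw [div_le_one hx0]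
    classical
    set P : ℕ → Finset ℕ := fun s => (Icc 1 x).filter fun n => ∃ j, collatz^[j] n = 2 * s with hP
    have e1 : ∀ s ∈ A, (({n : ℕ | 1 ≤ n ∧ n ≤ x ∧ ∃ j, collatz^[j] n = 2 * s}.ncard : ℕ) : ℝ) =
        ((P s).card : ℝ) := by
      intro s _
      rw [← Set.ncard_coe_finset]
      congr 2
      ext n
      simp [hP, and_assoc]
    rw [sum_congr rfl e1]
    have hdisj : ∀ s ∈ A, ∀ t ∈ A, s ≠ t → Disjoint (P s) (P t) := by
      intro s hs t ht hst
      rw [disjoint_left]
      intro n hn hn'
      simp only [hP, mem_filter] at hn hn'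
      obtain ⟨_, j, hj⟩ := hn
      obtain ⟨_, j', hj'⟩ := hn'
      obtain ⟨i, hi⟩ := short_of_collatz_two hj
      obtain ⟨i', hi'⟩ := short_of_collatz_two hj'
      rcases comparable hi hi' with ⟨k, hk⟩ | ⟨k, hk⟩
      · exact hanti s hs t ht hst k hk
      · exact hanti t ht s hs hst.symm k hk
    have hcard : ∑ s ∈ A, (P s).card = (A.biUnion P).card := (card_biUnion hdisj).symm
    have hle : (A.biUnion P).card ≤ x := by
      have : A.biUnion P ⊆ Icc 1 x := by
        intro n hn
        rw [mem_biUnion] at hn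
        obtain ⟨s, _, hs⟩ := hn
        exact (mem_filter.1 hs).1
      calc (A.biUnion P).card ≤ (Icc 1 x).card := card_le_card this
        _ = x := by simp
    rw [← hcard] at hle
    exact_mod_cast hle
  have hterm : ∀ s ∈ A, (1 : ℝ) / s ≤ 2 / c * δ (2 * s) := by
    intro s hs
    have h3 : ¬ 3 ∣ 2 * s := fun hd => hA s hs ((Nat.Coprime.dvd_mul_left (by norm_num)).1 hd)
    have h4 := h1 (2 * s) h3
    push_cast at h4
    have hs0 : (0 : ℝ) < s := by
      have : 0 < s := Nat.pos_of_ne_zero fun h0 => hA s hs (h0 ▸ dvd_zero 3)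
      exact_mod_cast this
    have e : (1 : ℝ) / s = 2 / c * (c / (2 * s)) := by field_simp
    rw [e]
    exact mul_le_mul_of_nonneg_left h4 (by positivity)
  calc ∑ s ∈ A, (1 : ℝ) / s ≤ ∑ s ∈ A, 2 / c * δ (2 * s) := sum_le_sum hterm
    _ = 2 / c * ∑ s ∈ A, δ (2 * s) := by rw [mul_sum]
    _ ≤ 2 / c * 1 := mul_le_mul_of_nonneg_left key (by positivity)
    _ = 2 / c := mul_one _

end GEN
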