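import Mathlib
import Pool.Agent.GEN.Anti

/-!
# Periodic points, and the elements of a set whose trajectory meets the set in few points
-/

set_option autoImplicit false

namespace GEN

open Finset Filter Topology Pool.Agent.LibHelper3

/-- `n` lies on a cycle of the shortcut map -/
def Per (n : ℕ) : Prop := 1 ≤ n ∧ ∃ p, 1 ≤ p ∧ short^[p] n = n

theorem short_ge_one {n : ℕ} (hn : 1 ≤ n) : 1 ≤ short n := by
  unfold short
  split_ifs <;> omega

theorem iter_mul_fix {n p : ℕ} (h : short^[p] n = n) (q : ℕ) : short^[q * p] n = n := by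
  induction q with
  | zero => simp
  | succ q ih => rw [Nat.succ_mul, Function.iterate_add_apply, h, ih]

theorem Per.short {n : ℕ} (h : Per n) : Per (short n) := by
  obtain ⟨h1, p, hp, hpn⟩ := h
  refine ⟨short_ge_one h1, p, hp, ?_⟩
  rw [← Function.iterate_succ_apply, Function.iterate_succ_apply', hpn]

theorem Per.iter {n : ℕ} (h : Per n) (k : ℕ) : Per (Pool.Agent.LibHelper3.short^[k] n) := by
  induction k with
  | zero => exact h
  | succ k ih => rw [Function.iterate_succ_apply']; exact ih.short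

theorem Per.inj {u v : ℕ} (hu : Per u) (hv : Per v)
    (h : Pool.Agent.LibHelper3.short u = Pool.Agent.LibHelper3.short v) : u = v := by
  obtain ⟨_, p, hp, hpu⟩ := hu
  obtain ⟨_, q, hq, hqv⟩ := hv
  have h1 : Pool.Agent.LibHelper3.short^[q * p] u = u := iter_mul_fix hpu q
  have h2 : Pool.Agent.LibHelper3.short^[p * q] v = v := iter_mul_fix hqv p
  rw [mul_comm p q] at h2
  obtain ⟨m, hm⟩ : ∃ m, q * p = m + 1 := ⟨q * p - 1, by
    have : 1 ≤ q * p := Nat.mul_pos hq hp
    omega⟩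
  rw [hm, Function.iterate_succ_apply] at h1 h2
  rw [← h1, ← h2, h]

theorem not_per_six {m : ℕ} (hm : Per m) (h2 : m % 2 = 1) : ¬ Per (6 * m + 2) := by
  intro h
  have e1 : short (6 * m + 2) = 3 * m + 1 := by
    have : (6 * m + 2) % 2 = 0 := by omega
    simp only [short, this, if_true]
    omega
  have h3 := h.short
  rw [e1] at h3
  have e2 : Pool.Agent.LibHelper3.short (3 * m + 1) = Pool.Agent.LibHelper3.short m := by
    have h4 : (3 * m + 1) % 2 = 0 := by omega
    have h5 : ¬ m % 2 = 0 := by omega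
    simp only [Pool.Agent.LibHelper3.short, h4, h5, if_true, if_false]
  have := h3.inj hm e2
  omega

theorem short_six {m : ℕ} (h2 : m % 2 = 1) (k : ℕ) :
    short^[k + 2] (6 * m + 2) = short^[k + 1] m := by
  have e1 : short (6 * m + 2) = 3 * m + 1 := by
    have : (6 * m + 2) % 2 = 0 := by omega
    simp only [short, this, if_true]
    omega
  have e2 : short (3 * m + 1) = short m := by
    have h4 : (3 * m + 1) % 2 = 0 := by omega
    have h5 : ¬ m % 2 = 0 := by omega
    simp only [short, h4, h5, if_true, if_false]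
  rw [Function.iterate_succ_apply, Function.iterate_succ_apply, e1, e2,
    Function.iterate_succ_apply]

theorem odd_periodic : ∃ C : ℝ, 0 ≤ C ∧ ∀ F : Finset ℕ, (∀ n ∈ F, Per n ∧ n % 2 = 1) →
    ∑ n ∈ F, (1 : ℝ) / n ≤ C := by
  obtain ⟨C, hC, h⟩ := antichain
  refine ⟨8 * C, by positivity, fun F hF => ?_⟩
  have hinj : Set.InjOn (fun m : ℕ => 6 * m + 2) F := fun a _ b _ hab => by
    have : 6 * a + 2 = 6 * b + 2 := hab
    omega
  have h1 := h (F.image fun m => 6 * m + 2) (by
    intro s hs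
    rw [mem_image] at hs
    obtain ⟨m, _, rfl⟩ := hs
    omega) (by
    intro s hs t ht hst k hk
    rw [mem_image] at hs ht
    obtain ⟨m, hm, rfl⟩ := hs
    obtain ⟨m', hm', rfl⟩ := ht
    rcases k with _ | _ | k
    · exact hst hk
    · have e1 : short (6 * m + 2) = 3 * m + 1 := by
        have : (6 * m + 2) % 2 = 0 := by omega
        simp only [short, this, if_true]
        omega
      have : 3 * m + 1 = 6 * m' + 2 := by
        rw [← e1]
        exact hk
      omega
    · rw [short_six (hF m hm).2] at hk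
      have h2 := (hF m hm).1.iter (k + 1)
      rw [hk] at h2
      exact not_per_six (hF m' hm').1 (hF m' hm').2 h2)
  rw [sum_image hinj] at h1
  have h2 : ∀ m ∈ F, (1 : ℝ) / m ≤ 8 * (1 / ((6 * m + 2 : ℕ) : ℝ)) := by
    intro m hm
    have hm1 : (1 : ℝ) ≤ m := by exact_mod_cast (hF m hm).1.1
    push_cast
    rw [mul_one_div, div_le_div_iff₀ (by positivity) (by positivity)]
    linarith
  calc ∑ n ∈ F, (1 : ℝ) / n ≤ ∑ m ∈ F, 8 * (1 / ((6 * m + 2 : ℕ) : ℝ)) := sum_le_sum h2
    _ = 8 * ∑ m ∈ F, (1 / ((6 * m + 2 : ℕ) : ℝ)) := by rw [mul_sum]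
    _ ≤ 8 * C := mul_le_mul_of_nonneg_left h1 (by norm_num)

theorem short_two_pow_mul (v o : ℕ) : short^[v] (2 ^ v * o) = o := by
  induction v with
  | zero => simp
  | succ v ih =>
    rw [Function.iterate_succ_apply]
    have e : short (2 ^ (v + 1) * o) = 2 ^ v * o := by
      have h1 : 2 ^ (v + 1) * o = 2 * (2 ^ v * o) := by ring
      rw [h1]
      have h2 : 2 * (2 ^ v * o) % 2 = 0 := by omega
      simp only [short, h2, if_true]
      omega
    rw [e, ih]

theorem geom_le_two (V : ℕ) : ∑ v ∈ range V, (1 : ℝ) / 2 ^ v ≤ 2 := by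
  have e : ∀ v : ℕ, (1 : ℝ) / 2 ^ v = (1 / 2) ^ v := fun v => (one_div_pow 2 v).symm
  simp only [e]
  have h := summable_geometric_two.sum_le_tsum (range V) (fun i _ => by positivity)
  rw [tsum_geometric_two] at h
  exact h

theorem periodic : ∃ C : ℝ, 0 ≤ C ∧ ∀ F : Finset ℕ, (∀ n ∈ F, Per n) →
    ∑ n ∈ F, (1 : ℝ) / n ≤ C := by
  obtain ⟨C, hC, h⟩ := odd_periodic
  refine ⟨2 * C, by positivity, fun F hF => ?_⟩
  have hdec : ∀ n : ℕ, 1 ≤ n → ∃ v o : ℕ, n = 2 ^ v * o ∧ o % 2 = 1 := by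
    intro n hn
    obtain ⟨v, o, ho, hv⟩ := Nat.exists_eq_two_pow_mul_odd (n := n) (by omega)
    exact ⟨v, o, hv, Nat.odd_iff.1 ho⟩
  choose! v o hv ho using hdec
  have hpo : ∀ n ∈ F, Per (o n) := by
    intro n hn
    have h1 := hF n hn
    have h2 := h1.iter (v n)
    have h3 := hv n h1.1
    have h4 : short^[v n] n = o n := by
      have h5 := short_two_pow_mul (v n) (o n)
      rwa [← h3] at h5
    rwa [h4] at h2
  set V := F.sup v + 1 with hV
  have hmaps : ∀ n ∈ F, (v n, o n) ∈ (range V) ×ˢ (F.image o) := by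
    intro n hn
    rw [mem_product, mem_range]
    exact ⟨Nat.lt_succ_of_le (le_sup hn), mem_image_of_mem _ hn⟩
  have hinj : Set.InjOn (fun n => (v n, o n)) F := by
    intro a ha b hb hab
    have h1 : v a = v b ∧ o a = o b := by simpa using hab
    rw [hv a (hF a ha).1, hv b (hF b hb).1, h1.1, h1.2]
  have h1 : ∑ n ∈ F, (1 : ℝ) / n =
      ∑ q ∈ F.image (fun n => (v n, o n)), (1 : ℝ) / 2 ^ q.1 * (1 / q.2) := by
    rw [sum_image hinj]
    refine sum_congr rfl fun n hn => ?_
    have h3 := hv n (hF n hn).1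
    have h4 : (n : ℝ) = 2 ^ v n * o n := by exact_mod_cast h3
    simp only
    rw [h4]
    rw [one_div_mul_one_div]
  have h2 : F.image (fun n => (v n, o n)) ⊆ (range V) ×ˢ (F.image o) := by
    intro q hq
    rw [mem_image] at hq
    obtain ⟨n, hn, rfl⟩ := hq
    exact hmaps n hn
  have h3 : ∑ n ∈ F.image o, (1 : ℝ) / n ≤ C := by
    refine h _ fun m hm => ?_
    rw [mem_image] at hm
    obtain ⟨n, hn, rfl⟩ := hm
    exact ⟨hpo n hn, ho n (hF n hn).1⟩
  rw [h1]
  calc ∑ q ∈ F.image (fun n => (v n, o n)), (1 : ℝ) / 2 ^ q.1 * (1 / q.2)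
      ≤ ∑ q ∈ (range V) ×ˢ (F.image o), (1 : ℝ) / 2 ^ q.1 * (1 / q.2) :=
        sum_le_sum_of_subset_of_nonneg h2 fun _ _ _ => by positivity
    _ = (∑ i ∈ range V, (1 : ℝ) / 2 ^ i) * ∑ n ∈ F.image o, (1 : ℝ) / n := by
        rw [sum_product, sum_mul_sum]
    _ ≤ 2 * C := by
        refine mul_le_mul (geom_le_two V) h3 (sum_nonneg fun _ _ => by positivity) (by norm_num)

/-- the trajectory of `n` -/
def orb (n : ℕ) : Set ℕ := {m | ∃ k, short^[k] n = m}

/-- **Every set.** The elements of `B` whose trajectory meets `B` in at most `r` points. -/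
theorem few_points : ∃ C : ℝ, 0 ≤ C ∧ ∀ B : Set ℕ, (∀ n ∈ B, ¬ 3 ∣ n) → ∀ r : ℕ, 1 ≤ r →
    ∀ F : Finset ℕ, (∀ n ∈ F, n ∈ B ∧ (orb n ∩ B).encard ≤ r) →
    ∑ n ∈ F, (1 : ℝ) / n ≤ C * r := by
  obtain ⟨C1, hC1, h1⟩ := antichain
  obtain ⟨C2, hC2, h2⟩ := periodic
  refine ⟨C1 + C2, by positivity, fun B hB r hr F hF => ?_⟩
  classical
  have hr1 : (1 : ℝ) ≤ r := by exact_mod_cast hr
  have hself : ∀ n, n ∈ orb n := fun n => ⟨0, rfl⟩
  have hlevel : ∀ i : ℕ, ∑ n ∈ F.filter (fun n => ¬ Per n ∧ (orb n ∩ B).encard = i),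
      (1 : ℝ) / n ≤ C1 := by
    intro i
    refine h1 _ ?_ ?_
    · intro s hs
      rw [mem_filter] at hs
      exact hB s (hF s hs.1).1
    · intro s hs t ht hst k hk
      rw [mem_filter] at hs ht
      obtain ⟨hsF, hsP, hsi⟩ := hs
      obtain ⟨htF, htP, hti⟩ := ht
      have hs1 : 1 ≤ s := by
        rcases Nat.eq_zero_or_pos s with h0 | h0
        · exact absurd (h0 ▸ dvd_zero 3) (hB s (hF s hsF).1)
        · exact h0
      have hk0 : k ≠ 0 := by
        rintro rfl
        exact hst hk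
      have hsub : orb t ∩ B ⊆ orb s ∩ B := by
        rintro m ⟨⟨j, hj⟩, hm⟩
        refine ⟨⟨j + k, ?_⟩, hm⟩
        rw [Function.iterate_add_apply, hk, hj]
      have hnot : s ∉ orb t ∩ B := by
        rintro ⟨⟨j, hj⟩, _⟩
        apply hsP
        refine ⟨hs1, j + k, by omega, ?_⟩
        rw [Function.iterate_add_apply, hk, hj]
      have hss : orb t ∩ B ⊂ orb s ∩ B :=
        ⟨hsub, fun h => hnot (h ⟨hself s, (hF s hsF).1⟩)⟩
      have hfin : (orb t ∩ B).Finite := by
        rw [← Set.encard_lt_top_iff, hti]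
        exact ENat.natCast_lt_top i
      have hlt := hfin.encard_lt_encard hss
      rw [hti, hsi] at hlt
      exact lt_irrefl _ hlt
  have hcover : F ⊆ F.filter Per ∪ (Icc 1 r).biUnion fun i =>
      F.filter (fun n => ¬ Per n ∧ (orb n ∩ B).encard = i) := by
    intro n hn
    rw [mem_union]
    by_cases hp : Per n
    · left; exact mem_filter.2 ⟨hn, hp⟩
    · right
      rw [mem_biUnion]
      obtain ⟨hnB, hnr⟩ := hF n hn
      have hfin : (orb n ∩ B).encard ≠ ⊤ := fun h => by
        rw [h, top_le_iff] at hnr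
        exact ENat.natCast_ne_top r hnr
      obtain ⟨i, hi⟩ := ENat.ne_top_iff_exists.1 hfin
      refine ⟨i, ?_, mem_filter.2 ⟨hn, hp, hi.symm⟩⟩
      rw [mem_Icc]
      rw [← hi] at hnr
      refine ⟨?_, by exact_mod_cast hnr⟩
      have hne : (orb n ∩ B).Nonempty := ⟨n, hself n, hnB⟩
      have h3 := Set.one_le_encard_iff_nonempty.2 hne
      rw [← hi] at h3
      exact_mod_cast h3
  calc ∑ n ∈ F, (1 : ℝ) / n ≤ ∑ n ∈ (F.filter Per ∪ (Icc 1 r).biUnion fun i =>
        F.filter (fun n => ¬ Per n ∧ (orb n ∩ B).encard = i)), (1 : ℝ) / n :=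
        sum_le_sum_of_subset_of_nonneg hcover fun _ _ _ => by positivity
    _ = ∑ n ∈ F.filter Per, (1 : ℝ) / n + ∑ i ∈ Icc 1 r, ∑ n ∈
        F.filter (fun n => ¬ Per n ∧ (orb n ∩ B).encard = i), (1 : ℝ) / n := by
        rw [sum_union, sum_biUnion]
        · intro i _ j _ hij
          rw [Function.onFun, disjoint_left]
          intro n hn hn'
          rw [mem_filter] at hn hn'
          apply hij
          have := hn.2.2.symm.trans hn'.2.2
          exact_mod_cast this
        · rw [disjoint_left]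
          intro n hn hn'
          rw [mem_biUnion] at hn'
          obtain ⟨i, _, hi⟩ := hn'
          exact (mem_filter.1 hi).2.1 (mem_filter.1 hn).2
    _ ≤ C2 + r * C1 := by
        refine add_le_add (h2 _ fun n hn => (mem_filter.1 hn).2) ?_
        refine (sum_le_sum fun i _ => hlevel i).trans ?_
        rw [sum_const, Nat.card_Icc, nsmul_eq_mul]
        simp
    _ ≤ (C1 + C2) * r := by nlinarith

end GEN
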