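import Mathlib
import Pool.Agent.GEN.Per

/-!
# The Collatz order has bounded harmonic width

Final form of the statements on antichains, periodic points, arbitrary sets and primes.
-/

set_option autoImplicit false

namespace GEN

open Finset Filter Topology Pool.Agent.LibHelper3

/-- passage from finite sets to arbitrary sets -/
theorem of_finite {S : Set ℕ} {C : ℝ}
    (h : ∀ F : Finset ℕ, (∀ n ∈ F, n ∈ S) → ∑ n ∈ F, (1 : ℝ) / n ≤ C) :
    Summable (fun n : S => (1 : ℝ) / (n : ℕ)) ∧ ∑' n : S, (1 : ℝ) / (n : ℕ) ≤ C := by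
  have key : ∀ F : Finset S, ∑ n ∈ F, (1 : ℝ) / (n : ℕ) ≤ C := by
    intro F
    have h1 := h (F.map ⟨Subtype.val, Subtype.val_injective⟩) (by
      intro n hn
      rw [Finset.mem_map] at hn
      obtain ⟨m, _, rfl⟩ := hn
      exact m.2)
    rw [sum_map] at h1
    exact h1
  have hs : Summable (fun n : S => (1 : ℝ) / (n : ℕ)) :=
    summable_of_sum_le (fun n => by positivity) key
  exact ⟨hs, hs.tsum_le_of_sum_le key⟩

/-- **Theorem.** -/
theorem width : ∃ C : ℝ,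
    (∀ A : Set ℕ, (∀ s ∈ A, ¬ 3 ∣ s) →
      (∀ s ∈ A, ∀ t ∈ A, s ≠ t → ∀ k, short^[k] s ≠ t) →
      Summable (fun s : A => (1 : ℝ) / (s : ℕ)) ∧ ∑' s : A, (1 : ℝ) / (s : ℕ) ≤ C) ∧
    (Summable (fun n : {n : ℕ | 1 ≤ n ∧ ∃ p, 1 ≤ p ∧ short^[p] n = n} => (1 : ℝ) / (n : ℕ)) ∧
      ∑' n : {n : ℕ | 1 ≤ n ∧ ∃ p, 1 ≤ p ∧ short^[p] n = n}, (1 : ℝ) / (n : ℕ) ≤ C) ∧
    (∀ B : Set ℕ, (∀ n ∈ B, ¬ 3 ∣ n) → ∀ r : ℕ, 1 ≤ r →
      Summable (fun n : {n ∈ B | ({m ∈ B | ∃ k, short^[k] n = m}).encard ≤ r} =>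
        (1 : ℝ) / (n : ℕ)) ∧
      ∑' n : {n ∈ B | ({m ∈ B | ∃ k, short^[k] n = m}).encard ≤ r}, (1 : ℝ) / (n : ℕ) ≤
        C * r) ∧
    (∀ r : ℕ, 1 ≤ r →
      Summable (fun p : {p : ℕ | p.Prime ∧
        ({q : ℕ | q.Prime ∧ ∃ k, short^[k] p = q}).encard ≤ r} => (1 : ℝ) / (p : ℕ)) ∧
      ∑' p : {p : ℕ | p.Prime ∧ ({q : ℕ | q.Prime ∧ ∃ k, short^[k] p = q}).encard ≤ r},
        (1 : ℝ) / (p : ℕ) ≤ C * r) := by
  obtain ⟨C1, hC1, h1⟩ := antichain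
  obtain ⟨C2, hC2, h2⟩ := periodic
  obtain ⟨C3, hC3, h3⟩ := few_points
  have e : ∀ (B : Set ℕ) (n : ℕ), {m ∈ B | ∃ k, short^[k] n = m} = orb n ∩ B := by
    intro B n
    ext m
    constructor
    · rintro ⟨a, b⟩; exact ⟨b, a⟩
    · rintro ⟨a, b⟩; exact ⟨b, a⟩
  refine ⟨C1 + C2 + C3 + 1, fun A hA hanti => of_finite fun F hF => ?_,
    of_finite fun F hF => ?_, fun B hB r hr => of_finite fun F hF => ?_,
    fun r hr => of_finite fun F hF => ?_⟩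
  · have := h1 F (fun s hs => hA s (hF s hs))
      (fun s hs t ht => hanti s (hF s hs) t (hF t ht))
    linarith
  · have := h2 F (fun n hn => hF n hn)
    linarith
  · have hr1 : (1 : ℝ) ≤ r := by exact_mod_cast hr
    have := h3 B hB r hr F (fun n hn => by
      have := hF n hn
      exact ⟨this.1, by rw [← e]; exact this.2⟩)
    nlinarith
  · have hr1 : (1 : ℝ) ≤ r := by exact_mod_cast hr
    classical
    have h4 := h3 {p : ℕ | p.Prime ∧ p ≠ 3} (fun p hp hd => hp.2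
      ((Nat.prime_dvd_prime_iff_eq Nat.prime_three hp.1).1 hd).symm) r hr (F.erase 3) (by
        intro p hp
        rw [mem_erase] at hp
        have h5 := hF p hp.2
        refine ⟨⟨h5.1, hp.1⟩, ?_⟩
        refine (Set.encard_le_encard ?_).trans h5.2
        rintro m ⟨hm1, hm2⟩
        exact ⟨hm2.1, hm1⟩)
    have h6 : ∑ n ∈ F, (1 : ℝ) / n ≤ ∑ n ∈ F.erase 3, (1 : ℝ) / n + 1 := by
      by_cases h3F : 3 ∈ F
      · rw [← sum_erase_add _ _ h3F]
        norm_num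
      · rw [erase_eq_of_notMem h3F]
        linarith
    nlinarith

end GEN
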