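import Mathlib
import Pool.Agent.GEN.Width
import Pool.Agent.Lib_helper1.DF.Main4

/-!
# The window lemma

Every set of integers prime to 3 of positive upper density contains a finite antichain (for the
order given by the trajectories of the shortcut map) whose predecessors have density bounded from
below by a constant which depends only on the upper density.
-/

set_option autoImplicit false

namespace GEN

open Finset Filter Topology Pool.Agent.LibHelper3 ND PD
open scoped Classical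

/-- the upper density of `B` is at least `η` -/
def Big (η : ℝ) (B : Set ℕ) : Prop := ∃ᶠ x : ℕ in atTop, η * x ≤ DF.A B x

/-- the window lemma -/
theorem window {η : ℝ} (hη : 0 < η) : ∃ c₁ : ℝ, 0 < c₁ ∧ ∀ B : Set ℕ, (∀ n ∈ B, ¬ 3 ∣ n) →
    Big η B → ∀ m : ℕ, ∃ S : Finset ℕ, (∀ s ∈ S, s ∈ B) ∧ m ≤ S.card ∧
      (∀ s ∈ S, ∀ t ∈ S, ∀ j : ℕ, 1 ≤ j → short^[j] s ≠ t) ∧
      c₁ ≤ ∑ s ∈ S, DF.del s ∧ Tendsto (F (DF.RA S)) atTop (𝓝 (∑ s ∈ S, DF.del s)) := by
  obtain ⟨c, hc, hlow⟩ := DF.density_lower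
  set ε : ℝ := η / 2 with hε
  have hε0 : 0 < ε := by positivity
  obtain ⟨j1, hj1⟩ := exists_pow_lt_of_lt_one (show (0 : ℝ) < ε / 424 by positivity)
    (show ((981 : ℝ) / 1000) < 1 by norm_num)
  set j0 := max 40 j1 with hj0
  have hj : 106 * ((981 : ℝ) / 1000) ^ j0 ≤ ε / 4 := by
    have : ((981 : ℝ) / 1000) ^ j0 ≤ (981 / 1000) ^ j1 :=
      pow_le_pow_of_le_one (by norm_num) (by norm_num) (le_max_right _ _)
    linarith
  obtain ⟨ya, hya⟩ := DF.few_not_good hε0 (le_max_left 40 j1) hj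
  rw [← hj0] at hya
  set θ : ℝ := 1 / (4 * 2 ^ j0) with hθ
  have hθ0 : 0 < θ := by positivity
  refine ⟨c * (ε / 2 * (θ / 2)), by positivity, fun B hB hbig m => ?_⟩
  set y0 := max (max ya 1) ⌈(m : ℝ) / (ε / 2 * θ)⌉₊ with hy0
  -- a window with many elements of `B`
  have hwin : ∃ y y2 : ℕ, y0 ≤ y ∧ y ≤ y2 ∧ θ * (y : ℝ) ≤ (y2 : ℝ) - y ∧
      2 * 2 ^ j0 * (y2 - y) ≤ y ∧
      ε * ((y2 : ℝ) - y) < (((Ioc y y2).filter (fun n => n ∈ B)).card : ℝ) := by
    by_contra hcon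
    push Not at hcon
    obtain ⟨C, hC⟩ := DF.blocks_to_all (p := fun n => n ∈ B) hε0 (j0 := j0) (y0 := y0)
      (fun y y2 h1 h2 h3 h4 => hcon y y2 h1 h2 h3 h4)
    obtain ⟨x, hx1, hx2⟩ := (hbig.and_eventually
      (eventually_gt_atTop ⌈(C : ℝ) / ε⌉₊)).exists
    have h1 := hC x
    have h2 : DF.A B x = (((Ioc 0 x).filter (fun n => n ∈ B)).card : ℝ) := rfl
    rw [← h2] at h1
    have h3 : (C : ℝ) / ε < x := lt_of_le_of_lt (Nat.le_ceil _) (by exact_mod_cast hx2)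
    rw [div_lt_iff₀ hε0] at h3
    have h4 : η * (x : ℝ) = ε * x + ε * x := by rw [hε]; ring
    linarith
  obtain ⟨y, y2, h1, h2, h3, h4, h5⟩ := hwin
  have hy1 : 1 ≤ y := ((le_max_right _ _).trans (le_max_left _ _)).trans h1
  have hyr : (1 : ℝ) ≤ y := by exact_mod_cast hy1
  have hy00 : (0 : ℝ) < y := by linarith
  have hy2 : y2 ≤ 2 * y := by
    have h6 : 1 ≤ 2 * 2 ^ j0 := by have := Nat.one_le_pow j0 2 (by norm_num); omega
    have h7 : y2 - y ≤ 2 * 2 ^ j0 * (y2 - y) := Nat.le_mul_of_pos_left _ (by omega)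
    omega
  have hy2r : (y2 : ℝ) ≤ 2 * y := by exact_mod_cast hy2
  have hbad := hya y y2 (((le_max_left _ _).trans (le_max_left _ _)).trans h1) h2 h3 h4
  set S := (Ioc y y2).filter (fun n => n ∈ B ∧ DF.Gd (DF.Kp y) y y2 (DF.Yp y) n) with hS
  have hcard : ε / 2 * ((y2 : ℝ) - y) ≤ (S.card : ℝ) := by
    have h6 : (Ioc y y2).filter (fun n => n ∈ B) ⊆
        S ∪ (Ioc y y2).filter (fun a => ¬ DF.Gd (DF.Kp y) y y2 (DF.Yp y) a) := by
      intro n hn
      rw [mem_filter] at hn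
      rw [mem_union, hS, mem_filter, mem_filter]
      by_cases hg : DF.Gd (DF.Kp y) y y2 (DF.Yp y) n
      · left; exact ⟨hn.1, hn.2, hg⟩
      · right; exact ⟨hn.1, hg⟩
    have h7 : (((Ioc y y2).filter (fun n => n ∈ B)).card : ℝ) ≤ S.card +
        ((Ioc y y2).filter (fun a => ¬ DF.Gd (DF.Kp y) y y2 (DF.Yp y) a)).card := by
      exact_mod_cast (card_le_card h6).trans (card_union_le _ _)
    linarith
  have hSG : ∀ s ∈ S, DF.Gd (DF.Kp y) y y2 (DF.Yp y) s := fun s hs => ((mem_filter.1 hs).2).2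
  have hSB : ∀ s ∈ S, s ∈ B := fun s hs => ((mem_filter.1 hs).2).1
  refine ⟨S, hSB, ?_, fun s hs t ht j hj => DF.anti (hSG s hs) (hSG t ht) hj, ?_,
    DF.F_RA_tendsto hSG⟩
  · have h6 : (m : ℝ) ≤ ε / 2 * ((y2 : ℝ) - y) := by
      have h7 : (m : ℝ) / (ε / 2 * θ) ≤ y :=
        (Nat.le_ceil _).trans (by exact_mod_cast (le_max_right _ _).trans h1)
      rw [div_le_iff₀ (by positivity)] at h7
      calc (m : ℝ) ≤ y * (ε / 2 * θ) := h7
        _ = ε / 2 * (θ * y) := by ring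
        _ ≤ _ := mul_le_mul_of_nonneg_left h3 (by positivity)
    exact_mod_cast h6.trans hcard
  · have hy20 : (0 : ℝ) < y2 := by
      have : (y : ℝ) ≤ y2 := by exact_mod_cast h2
      linarith
    have h6 : ∀ s ∈ S, c / y2 ≤ DF.del s := by
      intro s hs
      have h7 : s ∈ Ioc y y2 := (mem_filter.1 hs).1
      rw [mem_Ioc] at h7
      have h8 : s % 3 ≠ 0 := fun h => hB s (hSB s hs) (Nat.dvd_of_mod_eq_zero h)
      have h9 : Tendsto (fun x : ℕ => DF.A (ReachS s) x / x) atTop (𝓝 (DF.del s)) := by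
        have := tendsto_nat (DF.del_spec s)
        refine this.congr (fun x => ?_)
        rw [DF.A_eq_ncard]
      refine le_trans ?_ (hlow s h8 _ h9)
      have hs0 : (0 : ℝ) < s := by exact_mod_cast (by omega : 0 < s)
      apply div_le_div_of_nonneg_left hc.le hs0
      exact_mod_cast h7.2
    have h7 : (S.card : ℝ) * (c / y2) ≤ ∑ s ∈ S, DF.del s := by
      rw [← nsmul_eq_mul]
      exact card_nsmul_le_sum _ _ _ h6
    refine le_trans ?_ h7
    have h8 : θ / 2 * y2 ≤ (y2 : ℝ) - y := by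
      refine le_trans ?_ h3
      have : θ / 2 * (y2 : ℝ) ≤ θ / 2 * (2 * y) := mul_le_mul_of_nonneg_left hy2r (by positivity)
      linarith
    have h9 : ε / 2 * (θ / 2) * y2 ≤ (S.card : ℝ) := by
      refine le_trans ?_ hcard
      rw [mul_assoc]
      exact mul_le_mul_of_nonneg_left h8 (by positivity)
    rw [← mul_div_assoc (S.card : ℝ), le_div_iff₀ hy20]
    calc c * (ε / 2 * (θ / 2)) * y2 = c * (ε / 2 * (θ / 2) * y2) := by ring
      _ ≤ c * S.card := mul_le_mul_of_nonneg_left h9 hc.le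
      _ = S.card * c := by ring

end GEN
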