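import Mathlib
import Pool.Agent.GEN.DE1

/-!
# Exhaustion by finite unions

`V A` is the set of the integers whose trajectory meets `A`. For `A` a set of integers prime to 3,
`V A` is, up to a set of small upper density, a finite union of predecessor sets.
-/

set_option autoImplicit false

namespace GEN

open Finset Filter Topology Pool.Agent.LibHelper3 ND PD
open scoped Classical

/-! ### upper densities -/

theorem A_union_le (B Z : Set ℕ) (x : ℕ) : DF.A (B ∪ Z) x ≤ DF.A B x + DF.A Z x := by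
  have h1 : (Icc 1 x).filter (fun n => n ∈ B ∪ Z) ⊆
      (Icc 1 x).filter (fun n => n ∈ B) ∪ (Icc 1 x).filter (fun n => n ∈ Z) := by
    intro n hn
    rw [mem_filter] at hn
    rw [mem_union, mem_filter, mem_filter]
    rcases hn.2 with h | h
    · left; exact ⟨hn.1, h⟩
    · right; exact ⟨hn.1, h⟩
  have h2 := (card_le_card h1).trans (card_union_le _ _)
  have h3 : (((Icc 1 x).filter (fun n => n ∈ B ∪ Z)).card : ℝ) ≤
      ((Icc 1 x).filter (fun n => n ∈ B)).card + ((Icc 1 x).filter (fun n => n ∈ Z)).card := by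
    exact_mod_cast h2
  unfold DF.A
  convert h3

theorem Big.mono {η : ℝ} {B B' : Set ℕ} (h : Big η B) (hs : B ⊆ B') : Big η B' :=
  Frequently.mono h fun x hx => hx.trans (DF.A_mono hs x)

theorem Big.union {η : ℝ} {B Z : Set ℕ} (h : Big η (B ∪ Z)) : Big (η / 2) B ∨ Big (η / 2) Z := by
  unfold Big at *
  rw [← frequently_or_distrib]
  refine h.mono fun x hx => ?_
  by_contra hcon
  push Not at hcon
  have := A_union_le B Z x
  linarith [hcon.1, hcon.2]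

theorem not_big_of_bdd {η : ℝ} (hη : 0 < η) {B : Set ℕ} {b : ℕ} (hB : ∀ n ∈ B, n ≤ b) :
    ¬ Big η B := by
  intro h
  obtain ⟨x, hx, hx2⟩ := (h.and_eventually (eventually_gt_atTop ⌈(b : ℝ) / η⌉₊)).exists
  have h1 : DF.A B x ≤ b := by
    unfold DF.A
    have : (Icc 1 x).filter (· ∈ B) ⊆ Icc 1 b := by
      intro n hn
      rw [mem_filter, mem_Icc] at hn
      rw [mem_Icc]
      exact ⟨hn.1.1, hB n hn.2⟩
    have h2 := card_le_card this
    rw [Nat.card_Icc, Nat.add_sub_cancel] at h2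
    exact_mod_cast h2
  have h3 : (b : ℝ) / η < x := lt_of_le_of_lt (Nat.le_ceil _) (by exact_mod_cast hx2)
  rw [div_lt_iff₀ hη] at h3
  linarith

theorem Big.biUnion {B : ℕ → Set ℕ} (s : Finset ℕ) : ∀ {η : ℝ}, 0 < η →
    Big η {n | ∃ i ∈ s, n ∈ B i} → ∃ i ∈ s, ∃ η' : ℝ, 0 < η' ∧ Big η' (B i) := by
  induction s using Finset.induction_on with
  | empty =>
    intro η hη h
    exfalso
    refine not_big_of_bdd hη (b := 0) (fun n hn => ?_) h
    obtain ⟨i, hi, _⟩ := hn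
    exact absurd hi (notMem_empty i)
  | insert a s _ ih =>
    intro η hη h
    have h1 : Big η (B a ∪ {n | ∃ i ∈ s, n ∈ B i}) := by
      refine h.mono ?_
      rintro n ⟨i, hi, hn⟩
      rcases mem_insert.1 hi with rfl | hi
      · left; exact hn
      · right; exact ⟨i, hi, hn⟩
    rcases h1.union with h2 | h2
    · exact ⟨a, mem_insert_self a s, η / 2, by positivity, h2⟩
    · obtain ⟨i, hi, η', h3, h4⟩ := ih (by positivity) h2
      exact ⟨i, mem_insert_of_mem hi, η', h3, h4⟩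

/-- a single trajectory has density zero -/
theorem orb_not_big {η : ℝ} (hη : 0 < η) (a : ℕ) : ¬ Big η {n | n ∈ orb a ∧ ¬ 3 ∣ n} := by
  intro h
  obtain ⟨c₁, hc, hw⟩ := window hη
  obtain ⟨S, hS, hcard, hanti, _⟩ := hw _ (fun n hn => hn.2) h 2
  obtain ⟨s, hs, t, ht, hst⟩ := (one_lt_card (s := S)).1 (by omega)
  obtain ⟨⟨i, hi⟩, _⟩ := hS s hs
  obtain ⟨⟨j, hj⟩, _⟩ := hS t ht
  rcases comparable hi hj with ⟨k, hk⟩ | ⟨k, hk⟩
  · refine hanti s hs t ht k ?_ hk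
    rcases Nat.eq_zero_or_pos k with h0 | h0
    · subst h0; exact absurd hk hst
    · exact h0
  · refine hanti t ht s hs k ?_ hk
    rcases Nat.eq_zero_or_pos k with h0 | h0
    · subst h0; exact absurd hk.symm hst
    · exact h0

/-! ### finite unions -/

/-- the integers whose trajectory meets `A` -/
def V (A : Set ℕ) : Set ℕ := {n | ∃ k, short^[k] n ∈ A}

theorem RA_eq (S : Finset ℕ) : DF.RA S = V (S : Set ℕ) := by
  ext n
  constructor
  · rintro ⟨a, ha, k, hk⟩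
    exact ⟨k, by rw [hk]; exact ha⟩
  · rintro ⟨k, hk⟩
    exact ⟨_, hk, k, rfl⟩

theorem V_mono {A A' : Set ℕ} (h : A ⊆ A') : V A ⊆ V A' := by
  rintro n ⟨k, hk⟩
  exact ⟨k, h hk⟩

theorem V_trans {A B : Set ℕ} (h : B ⊆ V A) : V B ⊆ V A := by
  rintro n ⟨k, hk⟩
  obtain ⟨j, hj⟩ := h hk
  exact ⟨j + k, by rw [Function.iterate_add_apply]; exact hj⟩

theorem dens_exists (S : Finset ℕ) : ∃ δ : ℝ, Tendsto (F (DF.RA S)) atTop (𝓝 δ) :=
  density_exists Mix.mixing (DF.RA S) (S.sup id)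
    (fun n hn => DF.RA_inv (fun _ ha => le_sup (f := id) ha) n hn)

/-- the natural density of a finite union -/
noncomputable def dn (S : Finset ℕ) : ℝ := (dens_exists S).choose

theorem dn_spec (S : Finset ℕ) : Tendsto (F (DF.RA S)) atTop (𝓝 (dn S)) :=
  (dens_exists S).choose_spec

theorem dn_le_one (S : Finset ℕ) : dn S ≤ 1 := by
  refine le_of_tendsto' (dn_spec S) fun u => F_le_one _ u

theorem dn_nonneg (S : Finset ℕ) : 0 ≤ dn S := by
  refine ge_of_tendsto' (dn_spec S) fun u => F_nonneg _ u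

theorem N_mono {B B' : Set ℕ} (h : B ⊆ B') (z : ℝ) : N B z ≤ N B' z := by
  unfold N
  have : Bc B z ⊆ Bc B' z := by
    intro n hn
    rw [mem_Bc] at hn ⊢
    exact ⟨hn.1, hn.2.1, h hn.2.2⟩
  exact_mod_cast card_le_card this

theorem N_disj {B B' E : Set ℕ} (h : B ⊆ E) (h' : B' ⊆ E) (hd : ∀ n ∈ B, n ∉ B') (z : ℝ) :
    N B z + N B' z ≤ N E z := by
  unfold N
  have h1 : Disjoint (Bc B z) (Bc B' z) := by
    rw [disjoint_left]
    intro n hn hn'
    rw [mem_Bc] at hn hn'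
    exact hd n hn.2.2 hn'.2.2
  have h2 : Bc B z ∪ Bc B' z ⊆ Bc E z := by
    intro n hn
    rw [mem_union, mem_Bc, mem_Bc] at hn
    rw [mem_Bc]
    rcases hn with hn | hn
    · exact ⟨hn.1, hn.2.1, h hn.2.2⟩
    · exact ⟨hn.1, hn.2.1, h' hn.2.2⟩
  have h3 := card_le_card h2
  rw [card_union_of_disjoint h1] at h3
  exact_mod_cast h3

theorem dn_add_le {S T U : Finset ℕ} {δ : ℝ} (hT : Tendsto (F (DF.RA T)) atTop (𝓝 δ))
    (h : DF.RA S ⊆ DF.RA U) (h' : DF.RA T ⊆ DF.RA U) (hd : ∀ n ∈ DF.RA S, n ∉ DF.RA T) :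
    dn S + δ ≤ dn U := by
  refine le_of_tendsto_of_tendsto' ((dn_spec S).add hT) (dn_spec U) fun u => ?_
  unfold F D
  rw [← add_div]
  exact div_le_div_of_nonneg_right (N_disj h h' hd _) (Real.exp_pos u).le

/-- the supremum over the finite subsets -/
noncomputable def hA (A : Set ℕ) : ℝ := sSup {d | ∃ S : Finset ℕ, (S : Set ℕ) ⊆ A ∧ d = dn S}

theorem hA_bdd (A : Set ℕ) : BddAbove {d | ∃ S : Finset ℕ, (S : Set ℕ) ⊆ A ∧ d = dn S} := by
  refine ⟨1, ?_⟩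
  rintro d ⟨S, _, rfl⟩
  exact dn_le_one S

theorem dn_le_hA {A : Set ℕ} {S : Finset ℕ} (h : (S : Set ℕ) ⊆ A) : dn S ≤ hA A :=
  le_csSup (hA_bdd A) ⟨S, h, rfl⟩

theorem exists_dn (A : Set ℕ) {ε : ℝ} (hε : 0 < ε) :
    ∃ S : Finset ℕ, (S : Set ℕ) ⊆ A ∧ hA A - ε < dn S := by
  obtain ⟨d, ⟨S, hS, rfl⟩, h⟩ := exists_lt_of_lt_csSup (s := {d | ∃ S : Finset ℕ,
    (S : Set ℕ) ⊆ A ∧ d = dn S}) ⟨dn ∅, ∅, by simp, rfl⟩ (sub_lt_self (hA A) hε)
  exact ⟨S, hS, h⟩

/-- **exhaustion** -/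
theorem exhaust {A : Set ℕ} {η : ℝ} (hη : 0 < η) :
    ∃ S : Finset ℕ, (S : Set ℕ) ⊆ A ∧ ¬ Big η {n | n ∈ V A ∧ n ∉ DF.RA S ∧ ¬ 3 ∣ n} := by
  by_contra hcon
  push Not at hcon
  obtain ⟨c₁, hc, hw⟩ := window (show 0 < η / 2 by positivity)
  obtain ⟨S, hSA, hS⟩ := exists_dn A hc
  have hbig := hcon S hSA
  set B : Set ℕ := {n | (n ∈ V A ∧ n ∉ DF.RA S ∧ ¬ 3 ∣ n) ∧ ∀ s ∈ S, n ∉ orb s} with hB
  have h1 : Big η (B ∪ {n | ∃ s ∈ S, n ∈ {m | m ∈ orb s ∧ ¬ 3 ∣ m}}) := by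
    refine hbig.mono fun n hn => ?_
    by_cases h : ∀ s ∈ S, n ∉ orb s
    · left; exact ⟨hn, h⟩
    · push Not at h
      obtain ⟨s, hs, hns⟩ := h
      right
      exact ⟨s, hs, hns, hn.2.2⟩
  have h2 : Big (η / 2) B := by
    rcases h1.union with h | h
    · exact h
    · exfalso
      obtain ⟨s, _, η', h3, h4⟩ := Big.biUnion (B := fun s => {m | m ∈ orb s ∧ ¬ 3 ∣ m}) S
        (show 0 < η / 2 by positivity) h
      exact orb_not_big h3 s h4
  obtain ⟨T, hTB, _, _, hsum, hT⟩ := hw B (fun n hn => hn.1.2.2) h2 0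
  have hch : ∀ t ∈ T, ∃ a ∈ A, ∃ k, short^[k] t = a := by
    intro t ht
    obtain ⟨k, hk⟩ := (hTB t ht).1.1
    exact ⟨_, hk, k, rfl⟩
  choose! g hgA hgk using hch
  set U := S ∪ T.image g with hU
  have hUA : (U : Set ℕ) ⊆ A := by
    intro n hn
    rw [mem_coe, hU, mem_union, mem_image] at hn
    rcases hn with hn | ⟨t, ht, rfl⟩
    · exact hSA hn
    · exact hgA t ht
  have hSU : DF.RA S ⊆ DF.RA U := by
    rw [RA_eq, RA_eq]
    exact V_mono fun n hn => by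
      rw [mem_coe] at hn ⊢
      exact mem_union_left _ hn
  have hTU : DF.RA T ⊆ DF.RA U := by
    rw [RA_eq, RA_eq]
    refine V_trans fun t ht => ?_
    rw [mem_coe] at ht
    obtain ⟨k, hk⟩ := hgk t ht
    exact ⟨k, by rw [hk, mem_coe]; exact mem_union_right _ (mem_image_of_mem g ht)⟩
  have hdisj : ∀ n ∈ DF.RA S, n ∉ DF.RA T := by
    rintro n ⟨s, hs, i, hi⟩ ⟨t, ht, j, hj⟩
    have h3 := hTB t ht
    rcases comparable hi hj with ⟨k, hk⟩ | ⟨k, hk⟩
    · exact h3.2 s hs ⟨k, hk⟩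
    · exact h3.1.2.1 ⟨s, hs, k, hk⟩
  have h5 := dn_add_le hT hSU hTU hdisj
  have h6 := dn_le_hA hUA
  linarith

end GEN
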