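import Mathlib
import Pool.Agent.GEN.DE2

/-!
# Natural densities of arbitrary unions of predecessor sets
-/

set_option autoImplicit false

namespace GEN

open Finset Filter Topology Pool.Agent.LibHelper3 ND PD
open scoped Classical

/-- the number of elements up to `x` -/
noncomputable def cN (B : Set ℕ) (x : ℕ) : ℕ := ((Icc 1 x).filter (fun n => n ∈ B)).card

theorem A_eq (B : Set ℕ) (x : ℕ) : DF.A B x = (cN B x : ℝ) := by
  unfold DF.A cN
  congr!

/-- the multiples of 3 -/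
theorem mult_three {B : Set ℕ} (hB : ∀ n ∈ B, 3 ∣ n → short n ∈ B) {η C : ℝ} (hη : 0 < η)
    (hC : 0 ≤ C) (h : ∀ x : ℕ, DF.A {n | n ∈ B ∧ ¬ 3 ∣ n} x ≤ η * x + C) :
    ∃ C' : ℝ, 0 ≤ C' ∧ ∀ x : ℕ, DF.A {n | n ∈ B ∧ 3 ∣ n} x ≤ 5 * η * x + C' := by
  refine ⟨2 * C / η + 1, by positivity, fun x => ?_⟩
  induction x using Nat.strong_induction_on with
  | _ x ih =>
    by_cases hx : (x : ℝ) ≤ 2 * C / η + 1
    · have h1 := DF.A_le {n | n ∈ B ∧ 3 ∣ n} x
      have h2 : 0 ≤ 5 * η * (x : ℝ) := by positivity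
      linarith
    · rw [not_le] at hx
      have hC0 : 0 ≤ 2 * C / η := by positivity
      have hx1 : 1 < x := by
        have : (1 : ℝ) < x := by linarith
        exact_mod_cast this
      have hCx : 2 * C ≤ η * x := by
        have : 2 * C / η ≤ x := by linarith
        rw [div_le_iff₀ hη] at this
        linarith
      have hih := ih (x / 2) (by omega)
      have h2x := h (2 * x)
      -- splitting into even and odd elements
      set E := (Icc 1 x).filter (fun n => (n ∈ B ∧ 3 ∣ n) ∧ n % 2 = 0) with hE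
      set O := (Icc 1 x).filter (fun n => (n ∈ B ∧ 3 ∣ n) ∧ n % 2 = 1) with hO
      have hsplit : (Icc 1 x).filter (fun n => n ∈ {n | n ∈ B ∧ 3 ∣ n}) ⊆ E ∪ O := by
        intro n hn
        rw [mem_filter] at hn
        rw [mem_union, hE, hO, mem_filter, mem_filter]
        rcases Nat.mod_two_eq_zero_or_one n with h0 | h0
        · left; exact ⟨hn.1, hn.2, h0⟩
        · right; exact ⟨hn.1, hn.2, h0⟩
      have hEc : E.card ≤ ((Icc 1 (x / 2)).filter (fun n => n ∈ {n | n ∈ B ∧ 3 ∣ n})).card := by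
        refine card_le_card_of_injOn (fun n => n / 2) (fun n hn => ?_) (fun n hn m hm hnm => ?_)
        · rw [mem_coe, hE, mem_filter, mem_Icc] at hn
          rw [mem_coe, mem_filter, mem_Icc]
          obtain ⟨⟨h1, h2⟩, ⟨h3, h4⟩, h5⟩ := hn
          have h6 : short n = n / 2 := by simp only [short, h5, if_true]
          have h7 := hB n h3 h4
          rw [h6] at h7
          show (1 ≤ n / 2 ∧ n / 2 ≤ x / 2) ∧ (n / 2 ∈ B ∧ 3 ∣ n / 2)
          refine ⟨⟨by omega, by omega⟩, h7, by omega⟩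
        · rw [mem_coe, hE, mem_filter] at hn hm
          have h1 : n / 2 = m / 2 := hnm
          have h2 := hn.2.2
          have h3 := hm.2.2
          omega
      have hOc : O.card ≤ ((Icc 1 (2 * x)).filter (fun n => n ∈ {n | n ∈ B ∧ ¬ 3 ∣ n})).card := by
        refine card_le_card_of_injOn (fun n => (3 * n + 1) / 2) (fun n hn => ?_)
          (fun n hn m hm hnm => ?_)
        · rw [mem_coe, hO, mem_filter, mem_Icc] at hn
          rw [mem_coe, mem_filter, mem_Icc]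
          obtain ⟨⟨h1, h2⟩, ⟨h3, h4⟩, h5⟩ := hn
          have h6 : short n = (3 * n + 1) / 2 := by
            have : ¬ n % 2 = 0 := by omega
            simp only [short, this, if_false]
          have h7 := hB n h3 h4
          rw [h6] at h7
          show (1 ≤ (3 * n + 1) / 2 ∧ (3 * n + 1) / 2 ≤ 2 * x) ∧
            ((3 * n + 1) / 2 ∈ B ∧ ¬ 3 ∣ (3 * n + 1) / 2)
          refine ⟨⟨by omega, by omega⟩, h7, by omega⟩
        · rw [mem_coe, hO, mem_filter] at hn hm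
          have h1 : (3 * n + 1) / 2 = (3 * m + 1) / 2 := hnm
          have h2 := hn.2.2
          have h3 := hm.2.2
          omega
      have h3 : DF.A {n | n ∈ B ∧ 3 ∣ n} x ≤ DF.A {n | n ∈ B ∧ 3 ∣ n} (x / 2) +
          DF.A {n | n ∈ B ∧ ¬ 3 ∣ n} (2 * x) := by
        have hN : cN {n | n ∈ B ∧ 3 ∣ n} x ≤ cN {n | n ∈ B ∧ 3 ∣ n} (x / 2) +
            cN {n | n ∈ B ∧ ¬ 3 ∣ n} (2 * x) := by
          have hN := ((card_le_card hsplit).trans (card_union_le _ _)).trans (add_le_add hEc hOc)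
          unfold cN
          refine le_trans (le_of_eq ?_) (hN.trans (le_of_eq ?_)) <;> congr!
        rw [A_eq, A_eq, A_eq]
        exact_mod_cast hN
      have h4 : (((x / 2 : ℕ) : ℝ)) ≤ x / 2 := Nat.cast_div_le
      push_cast at h2x
      have h5 : 5 * η * (((x / 2 : ℕ) : ℝ)) ≤ 5 * η * (x / 2) :=
        mul_le_mul_of_nonneg_left h4 (by positivity)
      linarith

theorem not_big_bound {η : ℝ} (hη : 0 < η) {B : Set ℕ} (h : ¬ Big η B) :
    ∃ C : ℝ, 0 ≤ C ∧ ∀ x : ℕ, DF.A B x ≤ η * x + C := by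
  unfold Big at h
  rw [not_frequently] at h
  obtain ⟨X, hX⟩ := eventually_atTop.1 h
  refine ⟨X, by positivity, fun x => ?_⟩
  rcases le_total X x with hx | hx
  · have := hX x hx
    rw [not_le] at this
    have : (0 : ℝ) ≤ X := by positivity
    linarith
  · have h1 := DF.A_le B x
    have h2 : (x : ℝ) ≤ X := by exact_mod_cast hx
    have h3 : 0 ≤ η * (x : ℝ) := by positivity
    linarith

/-- the counting function of `V A` is close to that of a finite union -/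
theorem close {A : Set ℕ} (hA3 : ∀ a ∈ A, ¬ 3 ∣ a) {η : ℝ} (hη : 0 < η) :
    ∃ S : Finset ℕ, (S : Set ℕ) ⊆ A ∧ ∃ C : ℝ, 0 ≤ C ∧
      ∀ x : ℕ, DF.A (V A) x ≤ DF.A (DF.RA S) x + (6 * η * x + C) := by
  obtain ⟨S, hS, hbig⟩ := exhaust (A := A) hη
  refine ⟨S, hS, ?_⟩
  set B : Set ℕ := {n | n ∈ V A ∧ n ∉ DF.RA S} with hB
  have h1 : {n | n ∈ B ∧ ¬ 3 ∣ n} ⊆ {n | n ∈ V A ∧ n ∉ DF.RA S ∧ ¬ 3 ∣ n} := by
    rintro n ⟨⟨a, b⟩, c⟩
    exact ⟨a, b, c⟩
  obtain ⟨C, hC, hCx⟩ := not_big_bound hη (B := {n | n ∈ B ∧ ¬ 3 ∣ n}) (fun h => hbig (h.mono h1))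
  obtain ⟨C', hC', hCx'⟩ := mult_three (B := B) (fun n hn h3 => by
    obtain ⟨⟨k, hk⟩, hn2⟩ := hn
    refine ⟨?_, fun ⟨a, ha, j, hj⟩ => hn2 ⟨a, ha, j + 1, by
      rw [Function.iterate_succ_apply]; exact hj⟩⟩
    rcases k with _ | k
    · exact absurd h3 (hA3 n hk)
    · rw [Function.iterate_succ_apply] at hk
      exact ⟨k, hk⟩) hη hC hCx
  refine ⟨C + C', by positivity, fun x => ?_⟩
  have h2 : V A ⊆ DF.RA S ∪ ({n | n ∈ B ∧ ¬ 3 ∣ n} ∪ {n | n ∈ B ∧ 3 ∣ n}) := by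
    intro n hn
    by_cases h : n ∈ DF.RA S
    · left; exact h
    · right
      by_cases h3 : 3 ∣ n
      · right; exact ⟨⟨hn, h⟩, h3⟩
      · left; exact ⟨⟨hn, h⟩, h3⟩
  have h3 := DF.A_mono h2 x
  have h4 := A_union_le (DF.RA S) ({n | n ∈ B ∧ ¬ 3 ∣ n} ∪ {n | n ∈ B ∧ 3 ∣ n}) x
  have h5 := A_union_le {n | n ∈ B ∧ ¬ 3 ∣ n} {n | n ∈ B ∧ 3 ∣ n} x
  have h6 := hCx x
  have h7 := hCx' x
  linarith

theorem RA_tendsto (S : Finset ℕ) :
    Tendsto (fun x : ℕ => DF.A (DF.RA S) x / x) atTop (𝓝 (dn S)) := by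
  have := tendsto_nat (dn_spec S)
  refine this.congr (fun x => ?_)
  rw [DF.A_eq_ncard]

/-- **every union of predecessor sets has a natural density** -/
theorem union_density {A : Set ℕ} (hA3 : ∀ a ∈ A, ¬ 3 ∣ a) :
    Tendsto (fun x : ℕ => DF.A (V A) x / x) atTop (𝓝 (hA A)) := by
  rw [Metric.tendsto_atTop]
  intro ε hε
  obtain ⟨S, hSA, hS⟩ := exists_dn A (show 0 < ε / 2 by positivity)
  have h1 := RA_tendsto S
  rw [Metric.tendsto_atTop] at h1
  obtain ⟨X1, hX1⟩ := h1 (ε / 2) (by positivity)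
  obtain ⟨T, hTA, C, hC, hT⟩ := close hA3 (show 0 < ε / 24 by positivity)
  have h2 := RA_tendsto T
  rw [Metric.tendsto_atTop] at h2
  obtain ⟨X2, hX2⟩ := h2 (ε / 4) (by positivity)
  refine ⟨max (max X1 X2) (⌈4 * C / ε⌉₊ + 1), fun x hx => ?_⟩
  have x1 : X1 ≤ x := ((le_max_left _ _).trans (le_max_left _ _)).trans hx
  have x2 : X2 ≤ x := ((le_max_right _ _).trans (le_max_left _ _)).trans hx
  have x3 : ⌈4 * C / ε⌉₊ + 1 ≤ x := (le_max_right _ _).trans hx
  have hx0 : (0 : ℝ) < x := by exact_mod_cast (by omega : 0 < x)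
  have hCx : C ≤ ε / 4 * x := by
    have : 4 * C / ε ≤ x := (Nat.le_ceil _).trans (by exact_mod_cast (by omega : _ ≤ x))
    rw [div_le_iff₀ hε] at this
    linarith
  have a1 := hX1 x x1
  have a2 := hX2 x x2
  rw [Real.dist_eq, abs_lt] at a1 a2
  rw [Real.dist_eq, abs_lt]
  constructor
  · have h3 : DF.A (DF.RA S) x / x ≤ DF.A (V A) x / x := by
      refine div_le_div_of_nonneg_right (DF.A_mono ?_ x) hx0.le
      rw [RA_eq]
      exact V_mono hSA
    linarith [a1.1]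
  · have h3 : DF.A (V A) x / x ≤ DF.A (DF.RA T) x / x + ε / 2 := by
      rw [div_le_iff₀ hx0]
      have e : (DF.A (DF.RA T) x / x + ε / 2) * x = DF.A (DF.RA T) x + ε / 2 * x := by
        field_simp
      rw [e]
      refine (hT x).trans ?_
      have : 6 * (ε / 24) * (x : ℝ) + C ≤ ε / 2 * x := by linarith
      linarith
    have h4 := dn_le_hA hTA
    linarith [a2.2]

end GEN
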