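import Mathlib
import Pool.Agent.GEN.DE3

/-!
# Infinite chains in sets of positive upper density, number of visits
-/

set_option autoImplicit false

namespace GEN

open Finset Filter Topology Pool.Agent.LibHelper3 ND PD
open scoped Classical

/-- sets of integers prime to 3 of positive upper density -/
def PU (B : Set ℕ) : Prop := (∀ n ∈ B, ¬ 3 ∣ n) ∧ ∃ η : ℝ, 0 < η ∧ Big η B

theorem step {B : Set ℕ} (h : PU B) :
    ∃ b ∈ B, PU {n | (n ∈ B ∧ n ∈ ReachS b) ∧ b < n} := by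
  obtain ⟨h3, η, hη, hbig⟩ := h
  obtain ⟨S, hS, hnb⟩ := exhaust (A := B) (show 0 < η / 2 by positivity)
  have h1 : Big η ({n | n ∈ V B ∧ n ∉ DF.RA S ∧ ¬ 3 ∣ n} ∪ {n | n ∈ B ∧ n ∈ DF.RA S}) := by
    refine hbig.mono fun n hn => ?_
    by_cases h : n ∈ DF.RA S
    · right; exact ⟨hn, h⟩
    · left; exact ⟨⟨0, hn⟩, h, h3 n hn⟩
  have h2 : Big (η / 2) {n | n ∈ B ∧ n ∈ DF.RA S} := h1.union.resolve_left hnb
  have h4 : Big (η / 2) {n | ∃ s ∈ S, n ∈ {m | m ∈ B ∧ m ∈ ReachS s}} := by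
    refine h2.mono ?_
    rintro n ⟨hn, s, hs, hns⟩
    exact ⟨s, hs, hn, hns⟩
  obtain ⟨s, hs, η', hη', h5⟩ := Big.biUnion (B := fun s => {m | m ∈ B ∧ m ∈ ReachS s}) S
    (by positivity) h4
  refine ⟨s, hS hs, fun n hn => h3 n hn.1.1, η' / 2, by positivity, ?_⟩
  have h6 : Big η' ({n | (n ∈ B ∧ n ∈ ReachS s) ∧ s < n} ∪ {n | n ≤ s}) := by
    refine h5.mono fun n hn => ?_
    rcases lt_or_ge s n with h | h
    · left; exact ⟨hn, h⟩
    · right; exact h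
  exact h6.union.resolve_right (not_big_of_bdd (b := s) (by positivity) fun n hn => hn)

/-- **infinite chains** -/
theorem chain {B : Set ℕ} (h : PU B) : ∃ f : ℕ → ℕ, StrictMono f ∧ (∀ i, f i ∈ B) ∧
    ∀ i, ∃ k, short^[k] (f (i + 1)) = f i := by
  choose b hb hPU using fun B : {B : Set ℕ // PU B} => step B.2
  let nxt : {B : Set ℕ // PU B} → {B : Set ℕ // PU B} := fun B => ⟨_, hPU B⟩
  let Bs : ℕ → {B : Set ℕ // PU B} := fun i => nxt^[i] ⟨B, h⟩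
  have hBs : ∀ i, Bs (i + 1) = nxt (Bs i) := fun i => by
    show nxt^[i + 1] _ = nxt (nxt^[i] _)
    rw [Function.iterate_succ_apply']
  have hsucc : ∀ i, b (Bs (i + 1)) ∈ {n | (n ∈ (Bs i).1 ∧ n ∈ ReachS (b (Bs i))) ∧
      b (Bs i) < n} := by
    intro i
    have h1 := hb (Bs (i + 1))
    have h2 : (Bs (i + 1)).1 = {n | (n ∈ (Bs i).1 ∧ n ∈ ReachS (b (Bs i))) ∧ b (Bs i) < n} := by
      rw [hBs]
    rw [h2] at h1
    exact h1
  have hsub : ∀ i, (Bs i).1 ⊆ B := by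
    intro i
    induction i with
    | zero => exact subset_rfl
    | succ i ih =>
      rw [hBs]
      exact fun n hn => ih hn.1.1
  refine ⟨fun i => b (Bs i), strictMono_nat_of_lt_succ fun i => (hsucc i).2,
    fun i => hsub i (hb (Bs i)), fun i => (hsucc i).1.2⟩

/-- the lower bound in terms of the upper density -/
theorem lower {ρ : ℝ} (hρ : 0 < ρ) : ∃ κ : ℝ, 0 < κ ∧ ∀ B : Set ℕ, (∀ n ∈ B, ¬ 3 ∣ n) →
    Big ρ B → κ ≤ hA B := by
  obtain ⟨c₁, hc, hw⟩ := window hρ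
  refine ⟨c₁, hc, fun B hB hbig => ?_⟩
  obtain ⟨S, hS, _, _, hsum, hT⟩ := hw B hB hbig 0
  have h1 : dn S = ∑ s ∈ S, DF.del s := tendsto_nhds_unique (dn_spec S) hT
  have h2 : (S : Set ℕ) ⊆ B := fun s hs => hS s hs
  have := dn_le_hA h2
  linarith

/-- the elements whose trajectory contains at least `r` elements of `A` -/
theorem visits (A : Set ℕ) (r : ℕ) (hr : 1 ≤ r) (n : ℕ) :
    (r : ℕ∞) ≤ (orb n ∩ A).encard ↔ n ∈ V {a | a ∈ A ∧ (r : ℕ∞) ≤ (orb a ∩ A).encard} := by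
  constructor
  · intro h
    have hne : (orb n ∩ A).Nonempty := by
      rw [← Set.one_le_encard_iff_nonempty]
      refine le_trans ?_ h
      exact_mod_cast hr
    have hex : ∃ k, short^[k] n ∈ A := by
      obtain ⟨m, ⟨k, hk⟩, hm⟩ := hne
      exact ⟨k, by rw [hk]; exact hm⟩
    refine ⟨Nat.find hex, Nat.find_spec hex, h.trans (Set.encard_le_encard ?_)⟩
    rintro m ⟨⟨j, hj⟩, hm⟩
    have hle : Nat.find hex ≤ j := Nat.find_min' hex (by rw [hj]; exact hm)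
    refine ⟨⟨j - Nat.find hex, ?_⟩, hm⟩
    rw [← Function.iterate_add_apply, Nat.sub_add_cancel hle, hj]
  · rintro ⟨k, _, h2⟩
    refine h2.trans (Set.encard_le_encard ?_)
    rintro m ⟨⟨j, hj⟩, hm⟩
    exact ⟨⟨j + k, by rw [Function.iterate_add_apply, hj]⟩, hm⟩

/-- the expected number of visits -/
theorem lower_visit {A : Set ℕ} (hA3 : ∀ a ∈ A, ¬ 3 ∣ a) (r : ℕ) (hr : 1 ≤ r) :
    Tendsto (fun x : ℕ => DF.A {n | (r : ℕ∞) ≤ (orb n ∩ A).encard} x / x) atTop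
      (𝓝 (hA {a | a ∈ A ∧ (r : ℕ∞) ≤ (orb a ∩ A).encard})) := by
  have h := union_density (A := {a | a ∈ A ∧ (r : ℕ∞) ≤ (orb a ∩ A).encard})
    (fun a ha => hA3 a ha.1)
  have e : {n | (r : ℕ∞) ≤ (orb n ∩ A).encard} =
      V {a | a ∈ A ∧ (r : ℕ∞) ≤ (orb a ∩ A).encard} := by
    ext n
    exact visits A r hr n
  rw [e]
  exact h

end GEN
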