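import Mathlib
import Pool.Agent.GEN.DE4
import Pool.Agent.Lib_helper3.PR.Final2

/-!
# Residue classes
-/

set_option autoImplicit false

namespace GEN

open Finset Filter Topology Pool.Agent.LibHelper3 ND PD
open scoped Classical

/-- the elements of `B` in a residue class -/
def cls (B : Set ℕ) (q b : ℕ) : Set ℕ := {n | n ∈ B ∧ n % q = b % q}

theorem A_cls (B : Set ℕ) (q b x : ℕ) : DF.A (cls B q b) x = PR.Nd B q b (x : ℝ) := by
  rw [PR.Nd_eq_ncard, DF.A_eq_ncard]
  rfl

theorem N_eq (B : Set ℕ) (x : ℕ) : ND.N B (x : ℝ) = DF.A B x := by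
  rw [PR.N_eq_ncard, DF.A_eq_ncard]

/-- finite unions in residue classes -/
theorem RA_mod (S : Finset ℕ) (q b : ℕ) (hq : 1 ≤ q) :
    Tendsto (fun x : ℕ => DF.A (cls (DF.RA S) q b) x / x) atTop (𝓝 (dn S / q)) := by
  have h := PR.stmtMod (DF.RA S) (S.sup id) (dn S)
    (fun n hn => DF.RA_inv (fun _ ha => le_sup (f := id) ha) n hn) (by
      refine (RA_tendsto S).congr fun x => ?_
      rw [N_eq]) q b hq
  refine h.congr fun x => ?_
  rw [A_cls]

theorem sum_cls (B : Set ℕ) (q x : ℕ) (hq : 1 ≤ q) :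
    ∑ b ∈ range q, DF.A (cls B q b) x = DF.A B x := by
  have h : cN B x = ∑ b ∈ range q, cN (cls B q b) x := by
    unfold cN
    rw [card_eq_sum_card_fiberwise (f := fun n => n % q) (t := range q)
      (fun n _ => by simpa using Nat.mod_lt n hq)]
    refine sum_congr rfl fun b hb => ?_
    rw [filter_filter]
    congr 1
    ext n
    rw [mem_filter, mem_filter]
    have : b % q = b := Nat.mod_eq_of_lt (mem_range.1 hb)
    simp only [cls, Set.mem_setOf_eq, this]
  rw [A_eq, h]
  push_cast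
  refine sum_congr rfl fun b _ => ?_
  rw [A_eq]

/-- limits in classes from lower bounds -/
theorem class_lim {q : ℕ} (hq : 1 ≤ q) {L : ℕ → ℕ → ℝ} {T : ℕ → ℝ} {D : ℝ}
    (hsum : ∀ x, ∑ b ∈ range q, L b x = T x) (hT : Tendsto T atTop (𝓝 D))
    (hlow : ∀ ε : ℝ, 0 < ε → ∀ b < q, ∀ᶠ x in atTop, D / q - ε ≤ L b x) :
    ∀ b < q, Tendsto (L b) atTop (𝓝 (D / q)) := by
  intro b hb
  rw [Metric.tendsto_atTop]
  intro ε hε
  have hq0 : (0 : ℝ) < q := by exact_mod_cast hq
  set e : ℝ := ε / (q + 1) with he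
  have he0 : 0 < e := by positivity
  have h1 : ∀ᶠ x in atTop, ∀ b ∈ range q, D / q - e ≤ L b x :=
    (eventually_all_finset (range q)).2 fun b hb => hlow e he0 b (mem_range.1 hb)
  have h2 : ∀ᶠ x in atTop, T x < D + e := hT.eventually_lt_const (by linarith)
  obtain ⟨X, hX⟩ := eventually_atTop.1 (h1.and h2)
  refine ⟨X, fun x hx => ?_⟩
  obtain ⟨h3, h4⟩ := hX x hx
  have h5 := hsum x
  rw [← add_sum_erase _ _ (mem_range.2 hb)] at h5
  have h6 : ((q : ℝ) - 1) * (D / q - e) ≤ ∑ b' ∈ (range q).erase b, L b' x := by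
    have h7 := card_nsmul_le_sum ((range q).erase b) (fun b' => L b' x) (D / q - e)
      (fun b' hb' => h3 b' (mem_of_mem_erase hb'))
    rw [card_erase_of_mem (mem_range.2 hb), card_range, nsmul_eq_mul, Nat.cast_sub hq] at h7
    push_cast at h7
    exact h7
  have h8 := h3 b (mem_range.2 hb)
  have h9 : (q : ℝ) * (D / q) = D := by field_simp
  have h10 : e * (q + 1) = ε := by rw [he]; field_simp
  rw [Real.dist_eq, abs_lt]
  constructor <;> nlinarith

/-- **every union of predecessor sets is equidistributed in residue classes** -/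
theorem union_mod {A : Set ℕ} (hA3 : ∀ a ∈ A, ¬ 3 ∣ a) (q b : ℕ) (hq : 1 ≤ q) :
    Tendsto (fun x : ℕ => DF.A (cls (V A) q b) x / x) atTop (𝓝 (hA A / q)) := by
  have hq0 : (0 : ℝ) < q := by exact_mod_cast hq
  have h := class_lim hq (L := fun b x => DF.A (cls (V A) q b) x / x)
    (T := fun x => DF.A (V A) x / x) (D := hA A) (fun x => by
      rw [← sum_div, sum_cls _ _ _ hq]) (union_density hA3) (fun ε hε b _ => by
      obtain ⟨S, hSA, hS⟩ := exists_dn A (show 0 < ε / 2 by positivity)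
      have h1 := (RA_mod S q b hq).eventually_const_lt
        (show dn S / q - ε / 2 < dn S / q by linarith)
      filter_upwards [h1] with x hx
      have h2 : DF.A (cls (DF.RA S) q b) x / x ≤ DF.A (cls (V A) q b) x / x := by
        refine div_le_div_of_nonneg_right (DF.A_mono ?_ x) (Nat.cast_nonneg x)
        rintro n ⟨hn1, hn2⟩
        rw [RA_eq] at hn1
        exact ⟨V_mono hSA hn1, hn2⟩
      have h3 : (hA A - ε / 2) / q ≤ dn S / q := div_le_div_of_nonneg_right hS.le hq0.le
      have h4 : (hA A - ε / 2) / q = hA A / q - ε / 2 / q := by ring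
      have h5 : ε / 2 / q ≤ ε / 2 := div_le_self (by positivity) (by exact_mod_cast hq)
      linarith)
  have h2 := h (b % q) (Nat.mod_lt b hq)
  refine h2.congr fun x => ?_
  have : cls (V A) q (b % q) = cls (V A) q b := by
    unfold cls
    rw [Nat.mod_mod]
  rw [this]

end GEN
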