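import Mathlib
import Pool.Agent.GEN.DE5

/-!
# The number of visits
-/

set_option autoImplicit false

namespace GEN

open Finset Filter Topology Pool.Agent.LibHelper3 ND PD
open scoped Classical

/-- the elements of `A` whose trajectory contains at least `r` elements of `A` -/
def Vr (A : Set ℕ) (r : ℕ) : Set ℕ := {a | a ∈ A ∧ (r : ℕ∞) ≤ (orb a ∩ A).encard}

/-- the integers whose trajectory contains at least `r` elements of `A` -/
def Wr (A : Set ℕ) (r : ℕ) : Set ℕ := {n | (r : ℕ∞) ≤ (orb n ∩ A).encard}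

theorem Wr_eq (A : Set ℕ) (r : ℕ) (hr : 1 ≤ r) : Wr A r = V (Vr A r) := by
  ext n
  exact visits A r hr n

/-- the density of `Wr A r` -/
noncomputable def DD (A : Set ℕ) (r : ℕ) : ℝ := hA (Vr A r)

theorem Wr_tendsto {A : Set ℕ} (hA3 : ∀ a ∈ A, ¬ 3 ∣ a) (r : ℕ) (hr : 1 ≤ r) :
    Tendsto (fun x : ℕ => DF.A (Wr A r) x / x) atTop (𝓝 (DD A r)) := by
  rw [Wr_eq A r hr]
  exact union_density (A := Vr A r) (fun a ha => hA3 a ha.1)

theorem Wr_mod {A : Set ℕ} (hA3 : ∀ a ∈ A, ¬ 3 ∣ a) (r : ℕ) (hr : 1 ≤ r) (q b : ℕ)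
    (hq : 1 ≤ q) :
    Tendsto (fun x : ℕ => DF.A (cls (Wr A r) q b) x / x) atTop (𝓝 (DD A r / q)) := by
  rw [Wr_eq A r hr]
  exact union_mod (A := Vr A r) (fun a ha => hA3 a ha.1) q b hq

theorem Wr_mono {A A' : Set ℕ} (h : A ⊆ A') (r : ℕ) : Wr A r ⊆ Wr A' r := fun n hn =>
  le_trans (show (r : ℕ∞) ≤ (orb n ∩ A).encard from hn)
    (Set.encard_le_encard (Set.inter_subset_inter_right _ h))

theorem DD_mono {A A' : Set ℕ} (hA3 : ∀ a ∈ A', ¬ 3 ∣ a) (h : A ⊆ A') (r : ℕ) (hr : 1 ≤ r) :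
    DD A r ≤ DD A' r := by
  refine le_of_tendsto_of_tendsto' (Wr_tendsto (fun a ha => hA3 a (h ha)) r hr)
    (Wr_tendsto hA3 r hr) fun x => ?_
  exact div_le_div_of_nonneg_right (DF.A_mono (Wr_mono h r) x) (Nat.cast_nonneg x)

theorem A_nonneg (B : Set ℕ) (x : ℕ) : 0 ≤ DF.A B x := by
  rw [A_eq]; positivity

theorem DD_nonneg {A : Set ℕ} (hA3 : ∀ a ∈ A, ¬ 3 ∣ a) (r : ℕ) (hr : 1 ≤ r) : 0 ≤ DD A r :=
  ge_of_tendsto' (Wr_tendsto hA3 r hr) fun x => div_nonneg (A_nonneg _ x) (Nat.cast_nonneg x)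

/-- **finite subsets suffice** -/
theorem DD_approx {A : Set ℕ} (hA3 : ∀ a ∈ A, ¬ 3 ∣ a) (r : ℕ) (hr : 1 ≤ r) {ε : ℝ}
    (hε : 0 < ε) : ∃ S : Finset ℕ, (S : Set ℕ) ⊆ A ∧ DD A r - ε ≤ DD (S : Set ℕ) r := by
  obtain ⟨T, hTA, hT⟩ := exists_dn (Vr A r) hε
  have hex : ∀ a ∈ T, ∃ G : Finset ℕ, (G : Set ℕ) ⊆ orb a ∩ A ∧ G.card = r := by
    intro a ha
    obtain ⟨G, hG1, hG2⟩ := Set.exists_subset_encard_eq (hTA ha).2
    have hGf : G.Finite := Set.finite_of_encard_eq_coe hG2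
    refine ⟨hGf.toFinset, ?_, ?_⟩
    · rw [hGf.coe_toFinset]; exact hG1
    · have := hGf.encard_eq_coe_toFinset_card
      rw [hG2] at this
      exact_mod_cast this.symm
  choose! G hG1 hG2 using hex
  set S : Finset ℕ := T.biUnion G with hS
  have hSA : (S : Set ℕ) ⊆ A := by
    intro n hn
    rw [mem_coe, hS, mem_biUnion] at hn
    obtain ⟨a, ha, hn⟩ := hn
    exact (hG1 a ha hn).2
  refine ⟨S, hSA, ?_⟩
  have hsub : DF.RA T ⊆ Wr (S : Set ℕ) r := by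
    intro n hn
    rw [RA_eq] at hn
    obtain ⟨k, hk⟩ := hn
    set a := short^[k] n with ha
    have haT : a ∈ T := hk
    show (r : ℕ∞) ≤ (orb n ∩ (S : Set ℕ)).encard
    have h1 : ((G a : Finset ℕ) : Set ℕ) ⊆ orb n ∩ (S : Set ℕ) := by
      intro m hm
      refine ⟨?_, ?_⟩
      · obtain ⟨j, hj⟩ := (hG1 a haT hm).1
        exact ⟨j + k, by rw [Function.iterate_add_apply]; exact hj⟩
      · rw [mem_coe, hS, mem_biUnion]
        exact ⟨a, haT, hm⟩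
    have h2 := Set.encard_le_encard h1
    rw [Set.encard_coe_eq_coe_finsetCard, hG2 a haT] at h2
    exact h2
  have h3 : dn T ≤ DD (S : Set ℕ) r := by
    refine le_of_tendsto_of_tendsto' (RA_tendsto T)
      (Wr_tendsto (fun a ha => hA3 a (hSA ha)) r hr) fun x => ?_
    exact div_le_div_of_nonneg_right (DF.A_mono hsub x) (Nat.cast_nonneg x)
  unfold DD at *
  linarith

/-- density zero -/
def Zero (B : Set ℕ) : Prop := Tendsto (fun x : ℕ => DF.A B x / x) atTop (𝓝 0)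

theorem zero_of {B : Set ℕ} (h : ∀ ε : ℝ, 0 < ε → ∀ᶠ x : ℕ in atTop, DF.A B x ≤ ε * x) :
    Zero B := by
  unfold Zero
  rw [Metric.tendsto_atTop]
  intro ε hε
  obtain ⟨X, hX⟩ := eventually_atTop.1 ((h (ε / 2) (by positivity)).and (eventually_gt_atTop 0))
  refine ⟨X, fun x hx => ?_⟩
  obtain ⟨h1, h2⟩ := hX x hx
  have h3 : (0 : ℝ) < x := by exact_mod_cast h2
  rw [Real.dist_eq, sub_zero, abs_of_nonneg (div_nonneg (A_nonneg _ _) h3.le), div_lt_iff₀ h3]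
  nlinarith

/-- **almost bounded heights** -/
theorem heights {A : Set ℕ} (hA3 : ∀ a ∈ A, ¬ 3 ∣ a) (r : ℕ) (hr : 1 ≤ r) {f : ℕ → ℝ}
    (hf : Tendsto f atTop atTop) :
    Zero {n | n ∈ Wr A r ∧ n ∉ Wr {a | a ∈ A ∧ (a : ℝ) < f n} r} := by
  refine zero_of fun ε hε => ?_
  obtain ⟨S, hSA, hS⟩ := DD_approx hA3 r hr (show 0 < ε / 4 by positivity)
  obtain ⟨n0, hn0⟩ := eventually_atTop.1 (hf.eventually_gt_atTop ((S.sup id : ℕ) : ℝ))
  have h1 := (Wr_tendsto hA3 r hr).eventually_lt_const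
    (show DD A r < DD A r + ε / 4 by linarith)
  have h2 := (Wr_tendsto (fun a ha => hA3 a (hSA ha)) r hr).eventually_const_lt
    (show DD (S : Set ℕ) r - ε / 4 < DD (S : Set ℕ) r by linarith)
  filter_upwards [h1, h2, eventually_ge_atTop (⌈(4 * (n0 : ℝ)) / ε⌉₊ + 1)] with x h3 h4 h5
  have hx0 : (0 : ℝ) < x := by exact_mod_cast (by omega : 0 < x)
  have hn : (n0 : ℝ) ≤ ε / 4 * x := by
    have hx5 : ((⌈4 * (n0 : ℝ) / ε⌉₊ : ℕ) : ℝ) ≤ x := Nat.cast_le.2 (by omega)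
    have : 4 * (n0 : ℝ) / ε ≤ x := (Nat.le_ceil _).trans hx5
    rw [div_le_iff₀ hε] at this
    linarith
  set E : Set ℕ := {n | n ∈ Wr A r ∧ n ∉ Wr {a | a ∈ A ∧ (a : ℝ) < f n} r} with hE
  -- counting
  have h6 : cN E x + cN (Wr (S : Set ℕ) r) x ≤ n0 + cN (Wr A r) x := by
    have h7 : (Icc 1 x).filter (fun n => n ∈ E) ⊆ Icc 1 n0 ∪
        ((Icc 1 x).filter (fun n => n ∈ Wr A r) \
          (Icc 1 x).filter (fun n => n ∈ Wr (S : Set ℕ) r)) := by
      intro n hn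
      rw [mem_filter] at hn
      rw [mem_union, Finset.mem_sdiff, mem_filter, mem_filter]
      obtain ⟨hn1, hn2, hn3⟩ := hn
      by_cases hc : n ≤ n0
      · left
        rw [mem_Icc] at hn1 ⊢
        exact ⟨hn1.1, hc⟩
      · right
        refine ⟨⟨hn1, hn2⟩, fun hcon => hn3 ?_⟩
        have hfn := hn0 n (by omega)
        refine Wr_mono ?_ r hcon.2
        intro a ha
        refine ⟨hSA ha, lt_of_le_of_lt ?_ hfn⟩
        exact_mod_cast le_sup (f := id) ha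
    have h8 := (card_le_card h7).trans (card_union_le _ _)
    have h9 : (Icc 1 x).filter (fun n => n ∈ Wr (S : Set ℕ) r) ⊆
        (Icc 1 x).filter (fun n => n ∈ Wr A r) := by
      intro n hn
      rw [mem_filter] at hn ⊢
      exact ⟨hn.1, Wr_mono hSA r hn.2⟩
    rw [card_sdiff_of_subset h9, Nat.card_Icc, Nat.add_sub_cancel] at h8
    have h10 := card_le_card h9
    have e1 : cN E x = ((Icc 1 x).filter (fun n => n ∈ E)).card := by unfold cN; congr!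
    have e2 : cN (Wr A r) x = ((Icc 1 x).filter (fun n => n ∈ Wr A r)).card := by
      unfold cN; congr!
    have e3 : cN (Wr (S : Set ℕ) r) x =
        ((Icc 1 x).filter (fun n => n ∈ Wr (S : Set ℕ) r)).card := by unfold cN; congr!
    rw [e1, e2, e3]
    omega
  have h7 : DF.A E x + DF.A (Wr (S : Set ℕ) r) x ≤ n0 + DF.A (Wr A r) x := by
    rw [A_eq, A_eq, A_eq]
    exact_mod_cast h6
  rw [div_lt_iff₀ hx0] at h3
  rw [lt_div_iff₀ hx0] at h4
  nlinarith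

end GEN
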