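import Mathlib
import Pool.Agent.GEN.DE6

/-!
# The expected number of visits, upper densities
-/

set_option autoImplicit false

namespace GEN

open Finset Filter Topology Pool.Agent.LibHelper3 ND PD
open scoped Classical

theorem reach_tendsto (a : ℕ) :
    Tendsto (fun x : ℕ => DF.A (ReachS a) x / x) atTop (𝓝 (DF.del a)) := by
  refine (tendsto_nat (DF.del_spec a)).congr (fun x => ?_)
  rw [DF.A_eq_ncard]

theorem del_nonneg (a : ℕ) : 0 ≤ DF.del a :=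
  ge_of_tendsto' (reach_tendsto a) fun x => div_nonneg (A_nonneg _ x) (Nat.cast_nonneg x)

theorem mem_Wr_coe (S : Finset ℕ) (r n : ℕ) :
    n ∈ Wr (S : Set ℕ) r ↔ r ≤ (S.filter (fun a => a ∈ orb n)).card := by
  have h : orb n ∩ (S : Set ℕ) = ((S.filter (fun a => a ∈ orb n) : Finset ℕ) : Set ℕ) := by
    ext m
    rw [mem_coe, mem_filter]
    exact ⟨fun h => ⟨h.2, h.1⟩, fun h => ⟨h.2, h.1⟩⟩
  show (r : ℕ∞) ≤ (orb n ∩ (S : Set ℕ)).encard ↔ _
  rw [h, Set.encard_coe_eq_coe_finsetCard]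
  exact Nat.cast_le

theorem cN_eq_sum (B : Set ℕ) (x : ℕ) : cN B x = ∑ n ∈ Icc 1 x, if n ∈ B then 1 else 0 := by
  unfold cN
  rw [card_filter]

/-- the first moment, finite sets -/
theorem moment_finite (S : Finset ℕ) (hS3 : ∀ a ∈ S, ¬ 3 ∣ a) (R : ℕ) (hR : S.card ≤ R) :
    ∑ r ∈ Icc 1 R, DD (S : Set ℕ) r = ∑ a ∈ S, DF.del a := by
  have h1 : Tendsto (fun x : ℕ => ∑ r ∈ Icc 1 R, DF.A (Wr (S : Set ℕ) r) x / x) atTop
      (𝓝 (∑ r ∈ Icc 1 R, DD (S : Set ℕ) r)) :=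
    tendsto_finsetSum _ fun r hr => Wr_tendsto (fun a ha => hS3 a ha) r (mem_Icc.1 hr).1
  have h2 : Tendsto (fun x : ℕ => ∑ a ∈ S, DF.A (ReachS a) x / x) atTop
      (𝓝 (∑ a ∈ S, DF.del a)) := tendsto_finsetSum _ fun a _ => reach_tendsto a
  refine tendsto_nhds_unique h1 (h2.congr fun x => ?_)
  rw [← sum_div, ← sum_div]
  congr 1
  have h3 : ∑ a ∈ S, cN (ReachS a) x = ∑ r ∈ Icc 1 R, cN (Wr (S : Set ℕ) r) x := by
    simp only [cN_eq_sum]
    rw [sum_comm]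
    conv_rhs => rw [sum_comm]
    refine sum_congr rfl fun n _ => ?_
    have e1 : ∑ a ∈ S, (if n ∈ ReachS a then 1 else 0) =
        (S.filter (fun a => a ∈ orb n)).card := by
      rw [card_filter]
      rfl
    have e2 : ∑ r ∈ Icc 1 R, (if n ∈ Wr (S : Set ℕ) r then 1 else 0) =
        (S.filter (fun a => a ∈ orb n)).card := by
      rw [← card_filter]
      have h4 : (Icc 1 R).filter (fun r => n ∈ Wr (S : Set ℕ) r) =
          Icc 1 (S.filter (fun a => a ∈ orb n)).card := by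
        ext r
        rw [mem_filter, mem_Icc, mem_Icc, mem_Wr_coe]
        have h5 : (S.filter (fun a => a ∈ orb n)).card ≤ S.card := card_filter_le _ _
        omega
      rw [h4, Nat.card_Icc, Nat.add_sub_cancel]
    rw [e1, e2]
  have h4 : ∑ a ∈ S, DF.A (ReachS a) x = ((∑ a ∈ S, cN (ReachS a) x : ℕ) : ℝ) := by
    push_cast
    exact sum_congr rfl fun a _ => A_eq _ _
  have h5 : ∑ r ∈ Icc 1 R, DF.A (Wr (S : Set ℕ) r) x =
      ((∑ r ∈ Icc 1 R, cN (Wr (S : Set ℕ) r) x : ℕ) : ℝ) := by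
    push_cast
    exact sum_congr rfl fun a _ => A_eq _ _
  rw [h4, h5, h3]

theorem sum_range_Icc (f : ℕ → ℝ) (R : ℕ) : ∑ r ∈ range R, f (r + 1) = ∑ r ∈ Icc 1 R, f r := by
  rw [range_eq_Ico, sum_Ico_add' f 0 R 1]
  rfl

/-- upper bound for the finite sums -/
theorem sums_le {A : Set ℕ} (hA3 : ∀ a ∈ A, ¬ 3 ∣ a) (R : ℕ) {ε : ℝ} (hε : 0 < ε) :
    ∃ S : Finset ℕ, (S : Set ℕ) ⊆ A ∧
      ∑ r ∈ Icc 1 R, DD A r ≤ ∑ a ∈ S, DF.del a + ε := by
  have hR : (0 : ℝ) < (R : ℝ) + 1 := by positivity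
  have hex : ∀ r ∈ Icc 1 R, ∃ S : Finset ℕ, (S : Set ℕ) ⊆ A ∧
      DD A r - ε / (R + 1) ≤ DD (S : Set ℕ) r := fun r hr =>
    DD_approx hA3 r (mem_Icc.1 hr).1 (by positivity)
  choose! G hG1 hG2 using hex
  set S : Finset ℕ := (Icc 1 R).biUnion G with hS
  have hSA : (S : Set ℕ) ⊆ A := by
    intro n hn
    rw [mem_coe, hS, mem_biUnion] at hn
    obtain ⟨r, hr, hn⟩ := hn
    exact hG1 r hr hn
  have hS3 : ∀ a ∈ S, ¬ 3 ∣ a := fun a ha => hA3 a (hSA ha)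
  refine ⟨S, hSA, ?_⟩
  have h1 : ∑ r ∈ Icc 1 R, DD A r ≤ ∑ r ∈ Icc 1 R, (DD (S : Set ℕ) r + ε / (R + 1)) := by
    refine sum_le_sum fun r hr => ?_
    have h2 := hG2 r hr
    have h3 : DD ((G r : Finset ℕ) : Set ℕ) r ≤ DD (S : Set ℕ) r := by
      refine DD_mono (fun a ha => hS3 a ha) ?_ r (mem_Icc.1 hr).1
      intro n hn
      rw [mem_coe, hS, mem_biUnion]
      exact ⟨r, hr, hn⟩
    linarith
  have h2 : ∑ r ∈ Icc 1 R, DD (S : Set ℕ) r ≤ ∑ r ∈ Icc 1 (max R S.card), DD (S : Set ℕ) r := by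
    refine sum_le_sum_of_subset_of_nonneg (Icc_subset_Icc le_rfl (le_max_left _ _)) ?_
    intro r hr _
    exact DD_nonneg (fun a ha => hS3 a ha) r (mem_Icc.1 hr).1
  rw [moment_finite S hS3 _ (le_max_right _ _)] at h2
  rw [sum_add_distrib, sum_const, Nat.card_Icc, Nat.add_sub_cancel, nsmul_eq_mul] at h1
  have h3 : (R : ℝ) * (ε / (R + 1)) ≤ ε := by
    rw [mul_div_assoc', div_le_iff₀ hR]
    nlinarith
  linarith

/-- **the expected number of visits** -/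
theorem moment {A : Set ℕ} (hA3 : ∀ a ∈ A, ¬ 3 ∣ a) :
    ∑' r : ℕ, ENNReal.ofReal (DD A (r + 1)) = ∑' a : A, ENNReal.ofReal (DF.del a) := by
  refine le_antisymm ?_ ?_
  · refine ENNReal.tsum_le_of_sum_range_le fun R => ?_
    refine ENNReal.le_of_forall_pos_le_add fun e he _ => ?_
    obtain ⟨S, hSA, hS⟩ := sums_le hA3 R (ε := (e : ℝ)) (by exact_mod_cast he)
    have h1 : ∑ r ∈ range R, ENNReal.ofReal (DD A (r + 1)) =
        ENNReal.ofReal (∑ r ∈ Icc 1 R, DD A r) := by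
      rw [← sum_range_Icc, ENNReal.ofReal_sum_of_nonneg]
      intro r _
      exact DD_nonneg hA3 _ (by omega)
    rw [h1]
    refine (ENNReal.ofReal_le_ofReal hS).trans ?_
    rw [ENNReal.ofReal_add (sum_nonneg fun a _ => del_nonneg a) (by positivity),
      ENNReal.ofReal_coe_nnreal]
    refine add_le_add_left ?_ _
    rw [ENNReal.ofReal_sum_of_nonneg (fun a _ => del_nonneg a)]
    have h2 : ∑ a ∈ S, ENNReal.ofReal (DF.del a) =
        ∑ a ∈ S.subtype (fun a => a ∈ A), ENNReal.ofReal (DF.del (a : ℕ)) := by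
      rw [sum_subtype_of_mem (fun a => ENNReal.ofReal (DF.del a)) (fun a ha => hSA ha)]
    rw [h2]
    exact ENNReal.sum_le_tsum _
  · refine ENNReal.summable.tsum_le_of_sum_le fun F => ?_
    set S : Finset ℕ := F.map ⟨Subtype.val, Subtype.val_injective⟩ with hS
    have hSA : (S : Set ℕ) ⊆ A := by
      intro n hn
      rw [mem_coe, hS, Finset.mem_map] at hn
      obtain ⟨a, _, rfl⟩ := hn
      exact a.2
    have h1 : ∑ a ∈ F, ENNReal.ofReal (DF.del (a : ℕ)) = ENNReal.ofReal (∑ a ∈ S, DF.del a) := by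
      rw [ENNReal.ofReal_sum_of_nonneg (fun a _ => del_nonneg a), hS, sum_map]
      rfl
    rw [h1, ← moment_finite S (fun a ha => hA3 a (hSA ha)) S.card le_rfl]
    have h2 : ∑ r ∈ Icc 1 S.card, DD (S : Set ℕ) r ≤ ∑ r ∈ Icc 1 S.card, DD A r :=
      sum_le_sum fun r hr => DD_mono hA3 hSA r (mem_Icc.1 hr).1
    refine (ENNReal.ofReal_le_ofReal h2).trans ?_
    rw [← sum_range_Icc, ENNReal.ofReal_sum_of_nonneg (fun r _ => DD_nonneg hA3 _ (by omega))]
    exact ENNReal.sum_le_tsum _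

/-- a set with a convergent sum of reciprocals has density zero -/
theorem zero_of_recip {Z : Set ℕ} {K : ℝ}
    (h : ∀ F : Finset ℕ, (∀ n ∈ F, n ∈ Z) → ∑ n ∈ F, (1 : ℝ) / n ≤ K) : Zero Z := by
  refine zero_of fun ε hε => ?_
  set T : Set ℝ := {s | ∃ F : Finset ℕ, (∀ n ∈ F, n ∈ Z) ∧ s = ∑ n ∈ F, (1 : ℝ) / n} with hT
  have hb : BddAbove T := by
    refine ⟨K, ?_⟩
    rintro s ⟨F, hF, rfl⟩
    exact h F hF
  obtain ⟨s, ⟨F, hF, rfl⟩, hs⟩ := exists_lt_of_lt_csSup (s := T)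
    ⟨_, ∅, by simp, rfl⟩ (sub_lt_self (sSup T) (show 0 < ε / 2 by positivity))
  set y := F.sup id with hy
  filter_upwards [eventually_ge_atTop (⌈2 * (y : ℝ) / ε⌉₊ + 1)] with x hx
  have hx0 : (0 : ℝ) < x := by exact_mod_cast (by omega : 0 < x)
  have hyx : (y : ℝ) ≤ ε / 2 * x := by
    have hx5 : ((⌈2 * (y : ℝ) / ε⌉₊ : ℕ) : ℝ) ≤ x := Nat.cast_le.2 (by omega)
    have : 2 * (y : ℝ) / ε ≤ x := (Nat.le_ceil _).trans hx5
    rw [div_le_iff₀ hε] at this
    linarith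
  set G := (Icc 1 x).filter (fun n => n ∈ Z ∧ y < n) with hG
  have h1 : cN Z x ≤ y + G.card := by
    have h2 : (Icc 1 x).filter (fun n => n ∈ Z) ⊆ Icc 1 y ∪ G := by
      intro n hn
      rw [mem_filter, mem_Icc] at hn
      rw [mem_union, mem_Icc, hG, mem_filter, mem_Icc]
      by_cases hc : n ≤ y
      · left; exact ⟨hn.1.1, hc⟩
      · right; exact ⟨hn.1, hn.2, by omega⟩
    have h3 := (card_le_card h2).trans (card_union_le _ _)
    rw [Nat.card_Icc, Nat.add_sub_cancel] at h3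
    exact h3
  have hdisj : Disjoint F G := by
    rw [disjoint_left]
    intro n hn hn'
    rw [hG, mem_filter] at hn'
    have : n ≤ y := le_sup (f := id) hn
    omega
  have h2 : ∑ n ∈ F, (1 : ℝ) / n + ∑ n ∈ G, (1 : ℝ) / n ≤ sSup T := by
    rw [← sum_union hdisj]
    refine le_csSup hb ⟨F ∪ G, fun n hn => ?_, rfl⟩
    rcases mem_union.1 hn with hn | hn
    · exact hF n hn
    · rw [hG, mem_filter] at hn
      exact hn.2.1
  have h3 : (G.card : ℝ) / x ≤ ∑ n ∈ G, (1 : ℝ) / n := by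
    have h4 : ∑ _n ∈ G, (1 : ℝ) / x ≤ ∑ n ∈ G, (1 : ℝ) / n := by
      refine sum_le_sum fun n hn => ?_
      rw [hG, mem_filter, mem_Icc] at hn
      have hn0 : (0 : ℝ) < n := by exact_mod_cast hn.1.1
      exact one_div_le_one_div_of_le hn0 (by exact_mod_cast hn.1.2)
    rw [sum_const, nsmul_eq_mul, mul_one_div] at h4
    exact h4
  have h4 : (G.card : ℝ) ≤ ε / 2 * x := by
    have : (G.card : ℝ) / x ≤ ε / 2 := by linarith
    rwa [div_le_iff₀ hx0] at this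
  have h5 : (cN Z x : ℝ) ≤ y + G.card := by exact_mod_cast h1
  rw [A_eq]
  linarith

/-- **upper densities** -/
theorem upper {A : Set ℕ} (hA3 : ∀ a ∈ A, ¬ 3 ∣ a) (r : ℕ) (hr : 1 ≤ r) {ρ : ℝ}
    (h : Big ρ A) : ρ ≤ DD A r := by
  obtain ⟨C, hC, hfew⟩ := few_points
  have hZ : Zero {n | n ∈ A ∧ n ∉ Wr A r} := by
    refine zero_of_recip (K := C * r) fun F hF => hfew A hA3 r hr F fun n hn => ?_
    have := hF n hn
    refine ⟨this.1, ?_⟩
    by_contra hcon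
    rw [not_le] at hcon
    exact this.2 hcon.le
  have hlim := (Wr_tendsto hA3 r hr).add hZ
  rw [add_zero] at hlim
  refine ge_of_tendsto_of_frequently hlim ?_
  refine (h.and_eventually (eventually_gt_atTop 0)).mono fun x hx => ?_
  have hx0 : (0 : ℝ) < x := by exact_mod_cast hx.2
  have h1 : A ⊆ Wr A r ∪ {n | n ∈ A ∧ n ∉ Wr A r} := by
    intro n hn
    by_cases hc : n ∈ Wr A r
    · left; exact hc
    · right; exact ⟨hn, hc⟩
  have h2 := (DF.A_mono h1 x).trans (A_union_le _ _ x)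
  rw [← add_div, le_div_iff₀ hx0]
  exact hx.1.trans h2

end GEN
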