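import Mathlib
import Pool.Agent.GEN.DE7

/-!
# Visits of Collatz trajectories to an arbitrary set: the final theorem
-/

set_option autoImplicit false

namespace GEN

open Finset Filter Topology Pool.Agent.LibHelper3 ND PD

/-- the number of elements of `A` on the trajectory of `n` under the shortcut map -/
noncomputable def visitNumber (A : Set ℕ) (n : ℕ) : ℕ∞ := {a ∈ A | ∃ k, short^[k] n = a}.encard

theorem visitNumber_eq (A : Set ℕ) (n : ℕ) : visitNumber A n = (orb n ∩ A).encard := by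
  unfold visitNumber
  congr 1
  ext m
  exact ⟨fun h => ⟨h.2, h.1⟩, fun h => ⟨h.2, h.1⟩⟩

theorem mem_Wr (A : Set ℕ) (r n : ℕ) : n ∈ Wr A r ↔ (r : ℕ∞) ≤ visitNumber A n := by
  rw [visitNumber_eq]
  exact Iff.rfl

theorem tendsto_of_A {B : Set ℕ} {P : ℕ → Prop} {δ : ℝ} (hB : ∀ n, n ∈ B ↔ P n)
    (h : Tendsto (fun x : ℕ => DF.A B x / x) atTop (𝓝 δ)) :
    Tendsto (fun x : ℕ => ({n : ℕ | 1 ≤ n ∧ n ≤ x ∧ P n}.ncard : ℝ) / x) atTop (𝓝 δ) := by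
  refine h.congr fun x => ?_
  rw [DF.A_eq_ncard]
  congr 3
  ext n
  constructor
  · rintro ⟨h1, h2, h3⟩
    exact ⟨h1, h2, (hB n).1 h3⟩
  · rintro ⟨h1, h2, h3⟩
    exact ⟨h1, h2, (hB n).2 h3⟩

/-- **Theorem.** -/
theorem target_sets : ∃ (d : ℕ → ℝ) (c C : ℝ), 0 < c ∧
    (∀ a : ℕ, Tendsto (fun x : ℕ =>
      ({n : ℕ | 1 ≤ n ∧ n ≤ x ∧ ∃ k, short^[k] n = a}.ncard : ℝ) / x) atTop (𝓝 (d a))) ∧
    (∀ a : ℕ, ¬ 3 ∣ a → c / a ≤ d a) ∧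
    ∀ A : Set ℕ, (∀ a ∈ A, ¬ 3 ∣ a) → ∃ D : ℕ → ℝ,
      (∀ r q b : ℕ, 1 ≤ r → 1 ≤ q → Tendsto (fun x : ℕ =>
        ({n : ℕ | 1 ≤ n ∧ n ≤ x ∧ n ≡ b [MOD q] ∧ (r : ℕ∞) ≤ visitNumber A n}.ncard : ℝ) / x)
        atTop (𝓝 (D r / q))) ∧
      (∑' r : ℕ, ENNReal.ofReal (D (r + 1)) = ∑' a : A, ENNReal.ofReal (d a)) ∧
      (∀ (r : ℕ) (f : ℕ → ℝ), 1 ≤ r → Tendsto f atTop atTop → Tendsto (fun x : ℕ =>
        ({n : ℕ | 1 ≤ n ∧ n ≤ x ∧ (r : ℕ∞) ≤ visitNumber A n ∧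
          visitNumber {a ∈ A | (a : ℝ) < f n} n < r}.ncard : ℝ) / x) atTop (𝓝 0)) ∧
      (∀ ρ : ℝ, (∃ᶠ x : ℕ in atTop, ρ * x ≤ ({a : ℕ | 1 ≤ a ∧ a ≤ x ∧ a ∈ A}.ncard : ℝ)) →
        (∀ r : ℕ, 1 ≤ r → ρ ≤ D r) ∧
        (0 < ρ → ∃ s : ℕ → ℕ, StrictMono s ∧ (∀ i, s i ∈ A) ∧
          ∀ i, ∃ k, short^[k] (s (i + 1)) = s i)) ∧
      (∀ r : ℕ, 1 ≤ r →
        Summable (fun n : {n ∈ A | visitNumber A n ≤ r} => (1 : ℝ) / (n : ℕ)) ∧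
        ∑' n : {n ∈ A | visitNumber A n ≤ r}, (1 : ℝ) / (n : ℕ) ≤ C * r) := by
  obtain ⟨c, hc, hlow⟩ := DF.density_lower
  obtain ⟨C, hC, hfew⟩ := few_points
  refine ⟨DF.del, c, C, hc, fun a => ?_, fun a ha => ?_, fun A hA3 => ⟨DD A, ?_, moment hA3, ?_, ?_,
    ?_⟩⟩
  · exact tendsto_of_A (B := ReachS a) (fun n => Iff.rfl) (reach_tendsto a)
  · exact hlow a (fun h => ha (Nat.dvd_of_mod_eq_zero h)) _ (reach_tendsto a)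
  · intro r q b hr hq
    refine tendsto_of_A (B := cls (Wr A r) q b) (fun n => ?_) (Wr_mod hA3 r hr q b hq)
    rw [← mem_Wr]
    exact ⟨fun h => ⟨h.2, h.1⟩, fun h => ⟨h.2, h.1⟩⟩
  · intro r f hr hf
    refine tendsto_of_A (B := {n | n ∈ Wr A r ∧ n ∉ Wr {a | a ∈ A ∧ (a : ℝ) < f n} r})
      (fun n => ?_) (heights hA3 r hr hf)
    show (n ∈ Wr A r ∧ n ∉ Wr {a | a ∈ A ∧ (a : ℝ) < f n} r) ↔ _
    rw [mem_Wr, mem_Wr, not_le]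
  · intro ρ h
    have hbig : Big ρ A := by
      refine h.mono fun x hx => ?_
      rw [DF.A_eq_ncard]
      exact hx
    exact ⟨fun r hr => upper hA3 r hr hbig, fun hρ => chain ⟨hA3, ρ, hρ, hbig⟩⟩
  · intro r hr
    refine of_finite fun F hF => hfew A hA3 r hr F fun n hn => ?_
    have := hF n hn
    exact ⟨this.1, by rw [← visitNumber_eq]; exact this.2⟩

end GEN
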