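import Mathlib
import Pool.Agent.TLW.Final

/-!
# Joint law of the trajectories and of an arbitrary invariant set

The proof of `TLW.traj` for an arbitrary set `B` which is invariant beyond some point and consists of
integers with a bounded orbit minimum, instead of the set of the integers with a given orbit minimum.
-/

set_option autoImplicit false

namespace GEN

open Finset Pool.Agent.LibHelper3 ND Gau Filter Topology ProbabilityTheory TLW

variable {L : ℕ}

/-- the least term of the Collatz trajectory of `n` -/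
noncomputable def oMin (n : ℕ) : ℕ := sInf {m : ℕ | ∃ k, collatz^[k] n = m}

theorem oMin_spec (n : ℕ) : ∃ k, collatz^[k] n = oMin n := by
  have h : {m : ℕ | ∃ k, collatz^[k] n = m}.Nonempty := ⟨n, 0, rfl⟩
  exact Nat.sInf_mem h

theorem oMin_le (n k : ℕ) : oMin n ≤ collatz^[k] n := Nat.sInf_le ⟨k, rfl⟩

/-- the minimum is attained before time `k` or on the trajectory of the `k`-th term -/
theorem oMin_split (n k : ℕ) :
    (∃ s, s ≤ k ∧ collatz^[s] n = oMin n) ∨ oMin (collatz^[k] n) = oMin n := by
  obtain ⟨s, hs⟩ := oMin_spec n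
  rcases le_total s k with h | h
  · exact Or.inl ⟨s, h, hs⟩
  · right
    apply le_antisymm
    · have h1 := oMin_le (collatz^[k] n) (s - k)
      rw [← Function.iterate_add_apply, Nat.sub_add_cancel h, hs] at h1
      exact h1
    · obtain ⟨j, hj⟩ := oMin_spec (collatz^[k] n)
      rw [← hj, ← Function.iterate_add_apply]
      exact oMin_le n _

/-- heights at the times `t` and minimum time bounded -/
def Rgen (t : Fin (L + 2) → ℝ) (z : Fin (L + 1) → ℝ) : Set ℕ :=
  {n | (∀ l : Fin L, Real.log (short^[⌊t l.castSucc.succ * Real.log n / mu⌋₊] n : ℕ) ≤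
      (1 - t l.castSucc.succ) * Real.log n +
        z l.castSucc * (Real.log 3 / (2 * Real.sqrt mu)) * Real.sqrt (Real.log n)) ∧
    ∃ k : ℕ, (k : ℝ) ≤ cc * Real.log n + z (Fin.last L) * sg * Real.sqrt (Real.log n) ∧
      collatz^[k] n = oMin n}

theorem traj_gen (mix : Mixing) {t : Fin (L + 2) → ℝ} (ht : StrictMono t) (ht0 : t 0 = 0)
    (ht1 : t (Fin.last _) = 1) {B : Set ℕ} {yB : ℕ}
    (hB : ∀ n, yB < n → (n ∈ B ↔ short n ∈ B)) {Km : ℕ} (hKm : ∀ n ∈ B, oMin n ≤ Km)
    {δ : ℝ} (hδ : Tendsto (F B) atTop (𝓝 δ)) (z : Fin (L + 1) → ℝ) :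
    Tendsto (fun x : ℕ => D (B ∩ Rgen t z) x) atTop (𝓝 (δ * BM L t z)) := by
  set q := z (Fin.last L) * sg with hq
  set R : Set ℕ := B ∩ Rgen t z with hR
  have hmu := mu_pos
  have hmu1 := mu_lb
  have hsm := sqrt_mu_pos
  have hl3 := log_three_pos
  have hl2 : Real.log 2 = mu + Real.log 3 / 2 := by rw [mu_eq]; ring
  -- the times
  set tl : Fin L → ℝ := fun l => t l.castSucc.succ with htl
  set τ := t (Fin.last L).castSucc with hτ
  have htl0 : ∀ l, 0 < tl l := fun l => by
    rw [htl]; dsimp only; rw [← ht0]; exact ht (Fin.succ_pos _)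
  have htlτ : ∀ l, tl l ≤ τ := fun l => by
    apply ht.monotone
    rw [Fin.le_def]
    simp only [Fin.val_succ, Fin.val_castSucc, Fin.val_last]
    omega
  have hτ1 : τ < 1 := by
    rw [← ht1]
    apply ht
    rw [Fin.lt_def]
    simp
  have hτ0 : 0 ≤ τ := by
    rw [← ht0]
    exact ht.monotone (Fin.zero_le _)
  rw [Metric.tendsto_nhds]
  intro ε' hε'
  set ε := ε' / 5 with hε
  have hε0 : 0 < ε := by positivity
  -- the window
  set W : ℝ := max 2 (1 / ε) with hW
  have hW2 : 2 ≤ W := le_max_left _ _
  have hW0 : 0 < W := by linarith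
  have hW1 : 1 / W ≤ ε := by
    rw [div_le_iff₀ hW0]
    have : 1 / ε ≤ W := le_max_right _ _
    rw [div_le_iff₀ hε0] at this
    linarith
  set Λ := Real.log W with hΛ
  have hΛ0 : 0 ≤ Λ := Real.log_nonneg (by linarith)
  set C' := (cc + |q|) * Λ with hC'
  have hC'0 : 0 ≤ C' := by
    have := cc_pos
    positivity
  -- choice of `y`
  obtain ⟨y0, hy0⟩ := coreJ mix ht ht0 ht1 hB hδ ε hε0
  set y := max (max y0 Km) 1 with hy
  have a0 : y0 ≤ y := (le_max_left _ _).trans (le_max_left _ _)
  have a1 : Km ≤ y := (le_max_right _ _).trans (le_max_left _ _)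
  -- from `y` to the minimum
  have hTex : ∃ T : ℕ, ∀ b n, n ∈ E B y b 0 0 → ∃ k, k ≤ b + T ∧ collatz^[k] n = oMin n := by
    have hex : ∀ v : ℕ, ∃ s, collatz^[s] v = oMin v := oMin_spec
    choose t ht using hex
    refine ⟨∑ v ∈ range (y + 1), t v, fun b n hn => ?_⟩
    obtain ⟨h1, k, hk, hk2⟩ := hn
    rcases oMin_split n k with ⟨s, hs, hs'⟩ | h3
    · exact ⟨s, by omega, hs'⟩
    · have h4 : t (collatz^[k] n) ≤ ∑ v ∈ range (y + 1), t v :=
        single_le_sum (f := t) (fun _ _ => Nat.zero_le _) (mem_range.2 (by omega))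
      refine ⟨t (collatz^[k] n) + k, by omega, ?_⟩
      rw [Function.iterate_add_apply, ht, h3]
  obtain ⟨T, hT⟩ := hTex
  obtain ⟨Kc, hKc, hslow⟩ := HG.sconc_lower mix ε hε0 y
  -- the two budgets
  set bp : ℝ → ℕ := fun u => ⌈thr q u + C'⌉₊ with hbp
  set bm : ℝ → ℕ := fun u => ⌊thr q u - C' - T⌋₊ with hbm
  have hge : ∀ᶠ u : ℝ in atTop, C' + T + 1 ≤ thr q u := (thr_atTop q).eventually_ge_atTop _
  have hT0 : (0 : ℝ) ≤ T := by positivity
  have hbpl := thr_near q (C' + 1) bp (by
    filter_upwards [hge] with u hu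
    have c1 := Nat.le_ceil (thr q u + C')
    have c2 := Nat.ceil_lt_add_one (show 0 ≤ thr q u + C' by linarith)
    rw [abs_le]
    simp only [hbp]
    constructor <;> linarith)
  have hbml := thr_near q (C' + T + 1) bm (by
    filter_upwards [hge] with u hu
    have c1 := Nat.floor_le (show 0 ≤ thr q u - C' - T by linarith)
    have c2 := Nat.lt_floor_add_one (thr q u - C' - T)
    rw [abs_le]
    simp only [hbm]
    constructor <;> linarith)
  -- the blocks
  set c : ℝ → Fin L → ℕ := fun u l => ⌈tl l * u / (mu * s2 u)⌉₊ with hc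
  have hcb : ∀ᶠ u in atTop, ∀ l, tl l * u / mu ≤ ((c u l * s2 u : ℕ) : ℝ) ∧
      ((c u l * s2 u : ℕ) : ℝ) ≤ tl l * u / mu + s2 u := by
    filter_upwards [params2 0] with u h l
    obtain ⟨hu, _, _, hs1, _⟩ := h
    have hs0 : (0 : ℝ) < s2 u := by exact_mod_cast hs1
    have h1 := htl0 l
    have h2 := Nat.le_ceil (tl l * u / (mu * s2 u))
    have h3 := Nat.ceil_lt_add_one (show 0 ≤ tl l * u / (mu * s2 u) by positivity)
    have e : tl l * u / mu = tl l * u / (mu * s2 u) * s2 u := by field_simp
    have e2 : ((c u l * s2 u : ℕ) : ℝ) = (⌈tl l * u / (mu * s2 u)⌉₊ : ℝ) * s2 u := by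
      rw [hc]; push_cast; ring
    rw [e2, e]
    constructor
    · exact mul_le_mul_of_nonneg_right h2 hs0.le
    · nlinarith
  have hct : ∀ l, Tendsto (fun u => ((c u l * s2 u : ℕ) : ℝ) / (T2 u : ℝ)) atTop (𝓝 (tl l)) := by
    intro l
    have h1 : Tendsto (fun u => tl l / ((T2 u : ℝ) * mu / u)) atTop (𝓝 (tl l / 1)) :=
      tendsto_const_nhds.div T2_ratio one_ne_zero
    rw [div_one] at h1
    have h2 := h1.add s2_ratioT2
    rw [add_zero] at h2
    refine tendsto_of_tendsto_of_tendsto_of_le_of_le' h1 h2 ?_ ?_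
    · filter_upwards [hcb, params2 0] with u g h
      obtain ⟨hu, _, _, _, _, _, _, _, _, _, hT1, _⟩ := h
      have hT2 : (0 : ℝ) < T2 u := by exact_mod_cast hT1
      have e : tl l / ((T2 u : ℝ) * mu / u) = tl l * u / mu / T2 u := by field_simp
      rw [e]
      exact div_le_div_of_nonneg_right (g l).1 hT2.le
    · filter_upwards [hcb, params2 0] with u g h
      obtain ⟨hu, _, _, _, _, _, _, _, _, _, hT1, _⟩ := h
      have hT2 : (0 : ℝ) < T2 u := by exact_mod_cast hT1
      have e : tl l / ((T2 u : ℝ) * mu / u) + (s2 u : ℝ) / T2 u =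
          (tl l * u / mu + s2 u) / T2 u := by field_simp
      rw [e]
      exact div_le_div_of_nonneg_right (g l).2 hT2.le
  -- the thresholds of the path
  set Z : Fin L → ℝ := fun l => z l.castSucc / Real.sqrt mu with hZ
  set Δ : ℝ → ℝ := fun u => s2 u + (Λ / mu + 1) with hΔ
  set rp : ℝ → Fin L → ℝ := fun u l => Z l * Real.sqrt u + |Z l| * Λ + Δ u with hrp
  set rm : ℝ → Fin L → ℝ := fun u l => Z l * Real.sqrt u - |Z l| * Λ - Δ u -
    2 / Real.log 3 * (mu + 2 + Real.log (7 * u)) with hrm
  have hsT : Tendsto (fun u => Real.sqrt (T2 u)) atTop atTop :=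
    Real.tendsto_sqrt_atTop.comp (tendsto_natCast_atTop_atTop.comp T2_tendsto)
  have hΔl : Tendsto (fun u => Δ u / Real.sqrt (T2 u)) atTop (𝓝 0) := by
    have h1 := s2_ratioT.add (Tendsto.const_div_atTop hsT (Λ / mu + 1))
    rw [add_zero] at h1
    refine h1.congr fun u => ?_
    rw [hΔ]; ring
  have hZl : ∀ l, Tendsto (fun u => Z l * Real.sqrt u / Real.sqrt (T2 u)) atTop
      (𝓝 (z l.castSucc)) := by
    intro l
    have h1 := sqrt_ratio2.const_mul (Z l)
    have e : Z l * Real.sqrt mu = z l.castSucc := by rw [hZ]; field_simp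
    rw [e] at h1
    refine h1.congr fun u => ?_
    ring
  have hlogl : Tendsto (fun u => Real.log (7 * u) / Real.sqrt (T2 u)) atTop (𝓝 0) := by
    have h1 : Tendsto (fun u : ℝ => Real.log (7 * u) / Real.sqrt u) atTop (𝓝 0) := by
      have h2 : Tendsto (fun u : ℝ => Real.log u / u ^ (1 / 2 : ℝ)) atTop (𝓝 0) :=
        (isLittleO_log_rpow_atTop (by norm_num : (0 : ℝ) < 1 / 2)).tendsto_div_nhds_zero
      have h3 : Tendsto (fun u : ℝ => Real.log 7 / Real.sqrt u) atTop (𝓝 0) :=
        Tendsto.const_div_atTop Real.tendsto_sqrt_atTop _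
      have h4 := h3.add h2
      rw [add_zero] at h4
      refine h4.congr' ?_
      filter_upwards [eventually_gt_atTop 0] with u hu
      rw [Real.log_mul (by norm_num) hu.ne', Real.sqrt_eq_rpow, add_div]
    have h5 := h1.mul sqrt_ratio2
    rw [zero_mul] at h5
    refine h5.congr' ?_
    filter_upwards [eventually_gt_atTop 0] with u hu
    have : 0 < Real.sqrt u := Real.sqrt_pos.2 hu
    field_simp
  have hrpl : ∀ l, Tendsto (fun u => rp u l / Real.sqrt (T2 u)) atTop (𝓝 (z l.castSucc)) := by
    intro l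
    have h1 := ((hZl l).add (Tendsto.const_div_atTop hsT (|Z l| * Λ))).add hΔl
    rw [add_zero, add_zero] at h1
    refine h1.congr fun u => ?_
    rw [hrp]; ring
  have hrml : ∀ l, Tendsto (fun u => rm u l / Real.sqrt (T2 u)) atTop (𝓝 (z l.castSucc)) := by
    intro l
    have h1 := (((hZl l).sub (Tendsto.const_div_atTop hsT (|Z l| * Λ))).sub hΔl).sub
      (((Tendsto.const_div_atTop hsT (mu + 2)).add hlogl).const_mul (2 / Real.log 3))
    rw [add_zero, mul_zero, sub_zero, sub_zero, sub_zero] at h1
    refine h1.congr fun u => ?_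
    rw [hrm]; ring
  have hp := hy0 y a0 z bp c rp hbpl hct hrpl
  have hm := hy0 y a0 z bm c rm hbml hct hrml
  -- the trajectory is large up to the time `(1 + τ) / 2 * u / mu`
  set b3 : ℝ → ℕ := fun u => ⌊(1 + τ) / 2 * u / mu⌋₊ with hb3
  have hb3l : ∀ᶠ u : ℝ in atTop, (b3 u : ℝ) < HG.cs * u - Kc * rt u ^ 3 := by
    have h1 : Tendsto (fun u : ℝ => rt u) atTop atTop := by
      rw [tendsto_atTop]
      intro M
      filter_upwards [eventually_ge_atTop (max M 0 ^ 4), eventually_ge_atTop 0] with u hu hu0
      have h2 := rt_four hu0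
      have h3 := rt_nonneg u
      by_contra hcon
      push Not at hcon
      have h4 : rt u < max M 0 := lt_of_lt_of_le hcon (le_max_left _ _)
      have h5 : rt u ^ 4 < max M 0 ^ 4 := pow_lt_pow_left₀ h4 h3 (by norm_num)
      linarith
    filter_upwards [h1.eventually_ge_atTop (2 * (Kc + 1) * mu / (1 - τ)),
      eventually_gt_atTop 0] with u h2 hu
    have h3 : (b3 u : ℝ) ≤ (1 + τ) / 2 * u / mu := Nat.floor_le (by positivity)
    have h4 := rt_four hu.le
    have hr0 : 0 < rt u := by
      rcases (rt_nonneg u).lt_or_eq with h | h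
      · exact h
      · rw [← h] at h4; norm_num at h4; linarith
    have h5 : 0 < 1 - τ := by linarith
    rw [div_le_iff₀ h5] at h2
    have h6 : Kc * rt u ^ 3 < (1 - τ) / 2 * u / mu := by
      rw [lt_div_iff₀ hmu]
      have h7 : 2 * (Kc + 1) * mu * rt u ^ 3 ≤ rt u * (1 - τ) * rt u ^ 3 :=
        mul_le_mul_of_nonneg_right h2 (by positivity)
      have h8 : rt u * (1 - τ) * rt u ^ 3 = (1 - τ) * u := by
        calc _ = (1 - τ) * rt u ^ 4 := by ring
          _ = _ := by rw [h4]
      have h9 : 0 < mu * rt u ^ 3 := by positivity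
      nlinarith
    have h7 : HG.cs * u = u / mu := by unfold HG.cs; ring
    rw [h7]
    have h8 : u / mu = (1 + τ) / 2 * u / mu + (1 - τ) / 2 * u / mu := by ring
    linarith
  -- the first step is positive
  have hk1 : ∀ᶠ u : ℝ in atTop, ∀ l, 1 ≤ tl l * (u - Λ) / mu := by
    rw [eventually_all]
    intro l
    have h1 : Tendsto (fun u : ℝ => tl l * (u - Λ) / mu) atTop atTop := by
      apply Tendsto.atTop_div_const hmu
      apply Tendsto.const_mul_atTop (htl0 l)
      exact tendsto_atTop_add_const_right _ _ tendsto_id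
    exact h1.eventually_ge_atTop 1
  have hp' := log_nat_atTop.eventually hp
  have hm' := log_nat_atTop.eventually hm
  have hge' := log_nat_atTop.eventually hge
  have hone := log_nat_atTop.eventually (eventually_ge_atTop (1 : ℝ))
  have hb3' := log_nat_atTop.eventually hb3l
  have hk1' := log_nat_atTop.eventually hk1
  have hcb' := log_nat_atTop.eventually hcb
  filter_upwards [hp', hm', hge', hone, hb3', hk1', hcb', eventually_ge_atTop 1] with
    x hxp hxm hxg hx1 hxb hxk hxc hxn
  set u := Real.log x with hu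
  have hx0 : (0 : ℝ) < x := by exact_mod_cast (by omega : 0 < x)
  rw [hu, Real.exp_log hx0, ← hu] at hxp hxm
  have hxs : D (HG.SE y (b3 u) 0 0) x ≤ ε := hslow (b3 u) x hx0 hxb
  -- numbers in the window
  have hwin : ∀ n : ℕ, 1 ≤ n → (n : ℝ) ≤ x → ¬ (n : ℝ) ≤ x / W →
      u - Λ ≤ Real.log n ∧ Real.log n ≤ u := by
    intro n hn1 hn2 hn3
    have hn0 : (0 : ℝ) < n := by exact_mod_cast (by omega : 0 < n)
    constructor
    · rw [hu, hΛ, ← Real.log_div hx0.ne' hW0.ne']
      apply Real.log_le_log (by positivity)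
      exact (not_le.1 hn3).le
    · exact Real.log_le_log hn0 hn2
  -- facts on the path
  have hpath : ∀ n : ℕ, 1 ≤ n → u - Λ ≤ Real.log n → Real.log n ≤ u → ∀ l,
      (⌊tl l * Real.log n / mu⌋₊ : ℝ) ≤ tl l * Real.log n / mu ∧
      tl l * Real.log n / mu - 1 ≤ (⌊tl l * Real.log n / mu⌋₊ : ℝ) ∧
      1 ≤ ⌊tl l * Real.log n / mu⌋₊ ∧
      |(2 * (ones (pw ⌊tl l * Real.log n / mu⌋₊ n) : ℝ) - ⌊tl l * Real.log n / mu⌋₊) -
        (2 * (ones (pw (c u l * s2 u) n) : ℝ) - ((c u l * s2 u : ℕ) : ℝ))| ≤ Δ u ∧
      |Z l * Real.sqrt u - Z l * Real.sqrt (Real.log n)| ≤ |Z l| * Λ := by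
    intro n hn1 hv1 hv2 l
    set v := Real.log n with hv
    have hv0 : 0 ≤ v := Real.log_nonneg (by exact_mod_cast hn1)
    have ht0' := htl0 l
    have ht1' : tl l ≤ 1 := (htlτ l).trans hτ1.le
    have k1 : (⌊tl l * v / mu⌋₊ : ℝ) ≤ tl l * v / mu := Nat.floor_le (by positivity)
    have k2 : tl l * v / mu - 1 ≤ (⌊tl l * v / mu⌋₊ : ℝ) := by
      have := Nat.lt_floor_add_one (tl l * v / mu)
      linarith
    have k3 : 1 ≤ ⌊tl l * v / mu⌋₊ := by
      apply Nat.le_floor
      push_cast
      refine (hxk l).trans ?_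
      apply div_le_div_of_nonneg_right _ hmu.le
      exact mul_le_mul_of_nonneg_left hv1 ht0'.le
    refine ⟨k1, k2, k3, ?_, ?_⟩
    · refine (path_lip _ _ n).trans ?_
      have c1 := (hxc l).1
      have c2 := (hxc l).2
      have d1 : tl l * v / mu ≤ tl l * u / mu := by
        apply div_le_div_of_nonneg_right _ hmu.le
        exact mul_le_mul_of_nonneg_left hv2 ht0'.le
      have d2 : tl l * u / mu ≤ tl l * v / mu + Λ / mu := by
        rw [← add_div]
        apply div_le_div_of_nonneg_right _ hmu.le
        nlinarith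
      have hs0 : (0 : ℝ) ≤ s2 u := by positivity
      have hL0 : 0 ≤ Λ / mu := by positivity
      simp only [hΔ]
      rw [abs_le]
      constructor <;> linarith
    · have h := sqrt_lip hx1 hv0 hv1 hv2
      rw [← mul_sub, abs_mul, abs_of_nonneg h.1]
      exact mul_le_mul_of_nonneg_left h.2 (abs_nonneg _)
  have hthr : ∀ n : ℕ, 1 ≤ n → u - Λ ≤ Real.log n → Real.log n ≤ u →
      |thr q (Real.log n) - thr q u| ≤ C' := fun n hn1 h1 h2 =>
    thr_lip q Λ u (Real.log n) hx1 (Real.log_nonneg (by exact_mod_cast hn1)) h1 h2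
  -- upper bound
  have hup : D R x ≤ 1 / W + D (Pend (E B y (bp u)) (s2 u) (c u) (rp u) 0 0 0) x := by
    have d1 : D R x ≤ D {n : ℕ | (n : ℝ) ≤ x / W} x +
        D (Pend (E B y (bp u)) (s2 u) (c u) (rp u) 0 0 0) x := by
      apply D_union hx0.le
      intro n hn1 hn2 hn
      by_cases hcw : (n : ℝ) ≤ x / W
      · left; exact hcw
      · right
        obtain ⟨hv1, hv2⟩ := hwin n hn1 hn2 hcw
        obtain ⟨e1, e2, k, e3, e4⟩ := hn
        refine ⟨⟨e1, k, ?_, by rw [e4]; exact (hKm n e1).trans a1⟩, fun l _ => ?_⟩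
        · have w := (abs_le.1 (hthr n hn1 hv1 hv2)).2
          have c1 := Nat.le_ceil (thr q u + C')
          have e3' : (k : ℝ) ≤ thr q (Real.log n) := e3
          have hb3 : (k : ℝ) ≤ (bp u : ℝ) := by
            simp only [hbp]
            linarith
          have hb4 : k ≤ bp u := by exact_mod_cast hb3
          omega
        · obtain ⟨f1, f2, f3, f4, f5⟩ := hpath n hn1 hv1 hv2 l
          have g1 := e2 l
          have g2 := log_lower ⌊tl l * Real.log n / mu⌋₊ n hn1
          set v := Real.log n with hv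
          set K := ⌊tl l * v / mu⌋₊ with hK
          have g3 : (K : ℝ) * mu ≤ tl l * v := by
            rw [le_div_iff₀ hmu] at f1
            exact f1
          have e5 : z l.castSucc * (Real.log 3 / (2 * Real.sqrt mu)) * Real.sqrt v =
              Real.log 3 / 2 * (Z l * Real.sqrt v) := by
            rw [hZ]; field_simp
          have g1' : Real.log (short^[K] n : ℕ) ≤ (1 - tl l) * v +
              Real.log 3 / 2 * (Z l * Real.sqrt v) := by
            rw [← e5]; exact g1
          have g4 : Real.log 3 / 2 * (2 * (ones (pw K n) : ℝ) - K) ≤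
              Real.log 3 / 2 * (Z l * Real.sqrt v) := by
            rw [hl2] at g2
            nlinarith
          have g5 : 2 * (ones (pw K n) : ℝ) - K ≤ Z l * Real.sqrt v :=
            le_of_mul_le_mul_left g4 (by positivity)
          have g6 := (abs_le.1 f4).1
          have g7 := (abs_le.1 f5).1
          rw [Nat.sub_zero, zero_add]
          simp only [hrp]
          linarith
    have d3 := D_small hx0 hW0
    linarith
  -- lower bound
  have hlo : D (Pend (E B y (bm u)) (s2 u) (c u) (rm u) 0 0 0) x ≤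
      1 / W + (ε + D R x) := by
    have d1 : D (Pend (E B y (bm u)) (s2 u) (c u) (rm u) 0 0 0) x ≤
        D {n : ℕ | (n : ℝ) ≤ x / W} x + D (HG.SE y (b3 u) 0 0 ∪ R) x := by
      apply D_union hx0.le
      intro n hn1 hn2 hn
      by_cases hcw : (n : ℝ) ≤ x / W
      · left; exact hcw
      · right
        by_cases hse : n ∈ HG.SE y (b3 u) 0 0
        · left; exact hse
        · right
          obtain ⟨hv1, hv2⟩ := hwin n hn1 hn2 hcw
          obtain ⟨hE, hpend⟩ := hn
          obtain ⟨k, hk, hkm⟩ := hT (bm u) n hE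
          refine ⟨hE.1, fun l => ?_, k, ?_, hkm⟩
          · obtain ⟨f1, f2, f3, f4, f5⟩ := hpath n hn1 hv1 hv2 l
            set v := Real.log n with hv
            have hv0 : 0 ≤ v := Real.log_nonneg (by exact_mod_cast hn1)
            set K := ⌊tl l * v / mu⌋₊ with hK
            have ht0' := htl0 l
            have hreach : ∃ j, short^[j] n ≤ y := by
              obtain ⟨κ, _, hκ⟩ := hE.2
              exact HG.short_of_collatz y κ n hκ
            have habove : ∀ i, i ≤ K → y < short^[i] n := by
              intro i hi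
              by_contra hcon
              apply hse
              refine ⟨i, ?_, not_lt.1 hcon⟩
              have h1 : (i : ℝ) ≤ (1 + τ) / 2 * u / mu := by
                have h2 : (i : ℝ) ≤ K := by exact_mod_cast hi
                have h3 : tl l * v / mu ≤ (1 + τ) / 2 * u / mu := by
                  apply div_le_div_of_nonneg_right _ hmu.le
                  have h4 := htlτ l
                  have h5 : tl l * v ≤ τ * u := mul_le_mul h4 hv2 hv0 hτ0
                  have h6 : τ * u ≤ (1 + τ) / 2 * u :=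
                    mul_le_mul_of_nonneg_right (by linarith) (by linarith)
                  linarith
                linarith
              have h2 : i ≤ b3 u := Nat.le_floor h1
              omega
            have g1 := log_upper' hn1 hreach K f3 habove
            have g3 : tl l * v - mu ≤ (K : ℝ) * mu := by
              have : (tl l * v / mu - 1) * mu ≤ (K : ℝ) * mu :=
                mul_le_mul_of_nonneg_right f2 hmu.le
              have e : (tl l * v / mu - 1) * mu = tl l * v - mu := by field_simp
              linarith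
            have g4 : Real.log K ≤ Real.log (7 * u) := by
              apply Real.log_le_log (by exact_mod_cast (by omega : 0 < K))
              have h1 : tl l * v ≤ 1 * u :=
                mul_le_mul ((htlτ l).trans hτ1.le) hv2 hv0 (by norm_num)
              rw [le_div_iff₀ hmu] at f1
              have h2 : (K : ℝ) * 0.1437 ≤ K * mu := by gcongr
              have h3 : (0 : ℝ) ≤ K := by positivity
              nlinarith
            have g5 := hpend l (by
              have h1 := (hxc l).1
              have h2 : 0 < tl l * u / mu := by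
                have : 0 < u := by linarith
                positivity
              have h3 : (0 : ℝ) < ((c u l * s2 u : ℕ) : ℝ) := by linarith
              have h4 : 0 < c u l * s2 u := by exact_mod_cast h3
              exact Nat.pos_of_mul_pos_right h4)
            rw [Nat.sub_zero, zero_add] at g5
            simp only [hrm] at g5
            have g6 := (abs_le.1 f4).2
            have g7 := (abs_le.1 f5).2
            have g8 : 2 * (ones (pw K n) : ℝ) - K ≤ Z l * Real.sqrt v -
                2 / Real.log 3 * (mu + 2 + Real.log (7 * u)) := by linarith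
            have g9 : Real.log 3 / 2 * (2 * (ones (pw K n) : ℝ) - K) ≤
                Real.log 3 / 2 * (Z l * Real.sqrt v) - (mu + 2 + Real.log (7 * u)) := by
              have h1 := mul_le_mul_of_nonneg_left g8 (show 0 ≤ Real.log 3 / 2 by positivity)
              have e : Real.log 3 / 2 * (Z l * Real.sqrt v -
                2 / Real.log 3 * (mu + 2 + Real.log (7 * u))) =
                Real.log 3 / 2 * (Z l * Real.sqrt v) - (mu + 2 + Real.log (7 * u)) := by
                field_simp
              linarith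
            have e5 : z l.castSucc * (Real.log 3 / (2 * Real.sqrt mu)) * Real.sqrt v =
                Real.log 3 / 2 * (Z l * Real.sqrt v) := by
              rw [hZ]; field_simp
            rw [e5]
            show Real.log (short^[K] n : ℕ) ≤ (1 - tl l) * v +
              Real.log 3 / 2 * (Z l * Real.sqrt v)
            rw [hl2] at g1
            nlinarith
          · have w := (abs_le.1 (hthr n hn1 hv1 hv2)).1
            have c1 := Nat.floor_le (show 0 ≤ thr q u - C' - T by linarith)
            have hk' : (k : ℝ) ≤ (bm u : ℝ) + T := by exact_mod_cast hk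
            show (k : ℝ) ≤ thr q (Real.log n)
            simp only [hbm] at hk'
            linarith
    have d2 : D (HG.SE y (b3 u) 0 0 ∪ R) x ≤ D (HG.SE y (b3 u) 0 0) x + D R x :=
      D_union hx0.le (fun n _ _ hn => hn)
    have d3 := D_small hx0 hW0
    linarith
  have hxp1 := (abs_le.1 hxp).2
  have hxm1 := (abs_le.1 hxm).1
  rw [Real.dist_eq]
  refine lt_of_le_of_lt (abs_le.2 ⟨?_, ?_⟩ : |D R x - δ * BM L t z| ≤ 3 * ε) (by rw [hε]; linarith)
  · linarith
  · linarith

end GEN
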