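import Mathlib
import Pool.Agent.GEN.TJ1
import Pool.Agent.GEN.DE8

/-!
# Joint law of the trajectories and of the visits to an arbitrary set: approximation
-/

set_option autoImplicit false

namespace GEN

open Finset Pool.Agent.LibHelper3 ND Gau Filter Topology ProbabilityTheory TLW

theorem D_eq_A (B : Set ℕ) (x : ℕ) : D B (x : ℝ) = DF.A B x / x := by
  unfold D
  rw [N_eq]

theorem D_mono' {B B' : Set ℕ} (h : B ⊆ B') (x : ℕ) : D B (x : ℝ) ≤ D B' (x : ℝ) := by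
  rw [D_eq_A, D_eq_A]
  exact div_le_div_of_nonneg_right (DF.A_mono h x) (Nat.cast_nonneg x)

theorem D_union' (B B' : Set ℕ) (x : ℕ) : D (B ∪ B') (x : ℝ) ≤ D B (x : ℝ) + D B' (x : ℝ) := by
  rw [D_eq_A, D_eq_A, D_eq_A, ← add_div]
  exact div_le_div_of_nonneg_right (A_union_le _ _ x) (Nat.cast_nonneg x)

/-- sets of integers which can be approximated by invariant ones with bounded orbit minimum -/
def Tame (B : Set ℕ) : Prop := ∀ ε : ℝ, 0 < ε → ∃ (B' : Set ℕ) (y K : ℕ),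
  (∀ n, y < n → (n ∈ B' ↔ short n ∈ B')) ∧ (∀ n ∈ B', oMin n ≤ K) ∧
  ∀ᶠ x : ℕ in atTop, D (symmDiff B B') (x : ℝ) ≤ ε

theorem D_symm (B B' R : Set ℕ) (x : ℕ) :
    |D (B ∩ R) (x : ℝ) - D (B' ∩ R) (x : ℝ)| ≤ D (symmDiff B B') (x : ℝ) := by
  have h1 : D (B ∩ R) (x : ℝ) ≤ D (B' ∩ R) (x : ℝ) + D (symmDiff B B') (x : ℝ) := by
    refine (D_mono' ?_ x).trans (D_union' _ _ x)
    rintro n ⟨h, h'⟩
    by_cases hc : n ∈ B'
    · left; exact ⟨hc, h'⟩
    · right; left; exact ⟨h, hc⟩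
  have h2 : D (B' ∩ R) (x : ℝ) ≤ D (B ∩ R) (x : ℝ) + D (symmDiff B B') (x : ℝ) := by
    refine (D_mono' ?_ x).trans (D_union' _ _ x)
    rintro n ⟨h, h'⟩
    by_cases hc : n ∈ B
    · left; exact ⟨hc, h'⟩
    · right; right; exact ⟨h, hc⟩
  rw [abs_le]
  constructor <;> linarith

theorem D_symm' (B B' : Set ℕ) (x : ℕ) :
    |D B (x : ℝ) - D B' (x : ℝ)| ≤ D (symmDiff B B') (x : ℝ) := by
  have h := D_symm B B' Set.univ x
  rwa [Set.inter_univ, Set.inter_univ] at h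

theorem F_tendsto_D {B : Set ℕ} {δ : ℝ} (h : Tendsto (F B) atTop (𝓝 δ)) :
    Tendsto (fun x : ℕ => D B (x : ℝ)) atTop (𝓝 δ) := by
  refine (tendsto_nat h).congr fun x => ?_
  unfold D
  rw [N_set]

/-- tame sets have a natural density -/
theorem Tame.density (mix : Mixing) {B : Set ℕ} (h : Tame B) :
    ∃ δ : ℝ, Tendsto (fun x : ℕ => D B (x : ℝ)) atTop (𝓝 δ) := by
  have hc : CauchySeq (fun x : ℕ => D B (x : ℝ)) := by
    rw [Metric.cauchySeq_iff']
    intro ε hε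
    obtain ⟨B', y, K, hB', _, h1⟩ := h (ε / 5) (by positivity)
    obtain ⟨δ, hδ⟩ := density_exists mix B' y hB'
    have h2 := Metric.tendsto_atTop.1 (F_tendsto_D hδ) (ε / 5) (by positivity)
    obtain ⟨X1, hX1⟩ := h2
    obtain ⟨X2, hX2⟩ := eventually_atTop.1 h1
    have key : ∀ x, max X1 X2 ≤ x → |D B (x : ℝ) - δ| ≤ 2 * (ε / 5) := by
      intro x hx
      have a1 := hX1 x ((le_max_left _ _).trans hx)
      have a2 := hX2 x ((le_max_right _ _).trans hx)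
      have a3 := D_symm' B B' x
      rw [Real.dist_eq] at a1
      rw [abs_lt] at a1
      rw [abs_le] at a3 ⊢
      constructor <;> linarith
    refine ⟨max X1 X2, fun x hx => ?_⟩
    have b1 := abs_le.1 (key x hx)
    have b2 := abs_le.1 (key _ le_rfl)
    rw [Real.dist_eq, abs_lt]
    constructor <;> linarith
  exact cauchySeq_tendsto_of_complete hc

/-- **the joint law for tame sets** -/
theorem Tame.joint (mix : Mixing) {B : Set ℕ} (h : Tame B) {δ : ℝ}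
    (hδ : Tendsto (fun x : ℕ => D B (x : ℝ)) atTop (𝓝 δ))
    {L : ℕ} {t : Fin (L + 2) → ℝ} (ht : StrictMono t) (ht0 : t 0 = 0)
    (ht1 : t (Fin.last _) = 1) (z : Fin (L + 1) → ℝ) :
    Tendsto (fun x : ℕ => D (B ∩ Rgen t z) (x : ℝ)) atTop (𝓝 (δ * BM L t z)) := by
  have hb0 : 0 ≤ BM L t z := MeasureTheory.measureReal_nonneg
  have hb1 : BM L t z ≤ 1 := MeasureTheory.measureReal_le_one
  rw [Metric.tendsto_atTop]
  intro ε hε
  obtain ⟨B', y, K, hB', hK, h1⟩ := h (ε / 6) (by positivity)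
  obtain ⟨δ', hδ'⟩ := density_exists mix B' y hB'
  have h2 := traj_gen mix ht ht0 ht1 hB' hK hδ' z
  have h3 := F_tendsto_D hδ'
  have h4 : |δ - δ'| ≤ ε / 6 := by
    have h5 : Tendsto (fun x : ℕ => |D B (x : ℝ) - D B' (x : ℝ)|) atTop (𝓝 |δ - δ'|) :=
      (hδ.sub h3).abs
    refine le_of_tendsto h5 ?_
    filter_upwards [h1] with x hx
    exact (D_symm' B B' x).trans hx
  obtain ⟨X1, hX1⟩ := Metric.tendsto_atTop.1 h2 (ε / 6) (by positivity)
  obtain ⟨X2, hX2⟩ := eventually_atTop.1 h1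
  refine ⟨max X1 X2, fun x hx => ?_⟩
  have a1 := hX1 x ((le_max_left _ _).trans hx)
  have a2 := hX2 x ((le_max_right _ _).trans hx)
  have a3 := abs_le.1 (D_symm B B' (Rgen t z) x)
  rw [Real.dist_eq] at a1
  have a4 := abs_lt.1 a1
  have a5 : |δ * BM L t z - δ' * BM L t z| ≤ ε / 6 := by
    rw [← sub_mul, abs_mul, abs_of_nonneg hb0]
    calc |δ - δ'| * BM L t z ≤ |δ - δ'| * 1 := mul_le_mul_of_nonneg_left hb1 (abs_nonneg _)
      _ ≤ ε / 6 := by rw [mul_one]; exact h4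
  have a6 := abs_le.1 a5
  rw [Real.dist_eq, abs_lt]
  constructor <;> linarith

/-- **residue classes for tame sets** -/
theorem Tame.mod (mix : Mixing) {B : Set ℕ} (h : Tame B) {δ : ℝ}
    (hδ : Tendsto (fun x : ℕ => D B (x : ℝ)) atTop (𝓝 δ)) (q b : ℕ) (hq : 1 ≤ q) :
    Tendsto (fun x : ℕ => D (cls B q b) (x : ℝ)) atTop (𝓝 (δ / q)) := by
  have hq0 : (1 : ℝ) ≤ q := by exact_mod_cast hq
  have hcls : ∀ B : Set ℕ, cls B q b = B ∩ {n | n % q = b % q} := fun _ => rfl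
  rw [Metric.tendsto_atTop]
  intro ε hε
  obtain ⟨B', y, K, hB', hK, h1⟩ := h (ε / 6) (by positivity)
  obtain ⟨δ', hδ'⟩ := density_exists mix B' y hB'
  have h3 := F_tendsto_D hδ'
  have h2 : Tendsto (fun x : ℕ => D (cls B' q b) (x : ℝ)) atTop (𝓝 (δ' / q)) := by
    have h := PR.stmtMod B' y δ' hB' h3 q b hq
    refine h.congr fun x => ?_
    rw [D_eq_A, A_cls]
  have h4 : |δ - δ'| ≤ ε / 6 := by
    have h5 : Tendsto (fun x : ℕ => |D B (x : ℝ) - D B' (x : ℝ)|) atTop (𝓝 |δ - δ'|) :=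
      (hδ.sub h3).abs
    refine le_of_tendsto h5 ?_
    filter_upwards [h1] with x hx
    exact (D_symm' B B' x).trans hx
  obtain ⟨X1, hX1⟩ := Metric.tendsto_atTop.1 h2 (ε / 6) (by positivity)
  obtain ⟨X2, hX2⟩ := eventually_atTop.1 h1
  refine ⟨max X1 X2, fun x hx => ?_⟩
  have a1 := hX1 x ((le_max_left _ _).trans hx)
  have a2 := hX2 x ((le_max_right _ _).trans hx)
  have a3 := abs_le.1 (D_symm B B' {n | n % q = b % q} x)
  rw [← hcls, ← hcls] at a3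
  rw [Real.dist_eq] at a1
  have a4 := abs_lt.1 a1
  have a5 : |δ / q - δ' / q| ≤ ε / 6 := by
    rw [← sub_div, abs_div, abs_of_nonneg (by linarith : (0 : ℝ) ≤ q)]
    exact (div_le_self (abs_nonneg _) hq0).trans h4
  have a6 := abs_le.1 a5
  rw [Real.dist_eq, abs_lt]
  constructor <;> linarith

end GEN
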