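import Mathlib
import Pool.Agent.GEN.TJ2

/-!
# Orbit minimum in `M` and at least `r` visits to `A`
-/

set_option autoImplicit false

namespace GEN

open Finset Pool.Agent.LibHelper3 ND Gau Filter Topology ProbabilityTheory TLW
open scoped Classical

theorem mem_minEq (n m : ℕ) : n ∈ MinEq m ↔ oMin n = m := by
  constructor
  · intro h
    obtain ⟨k, hk⟩ := h.1
    obtain ⟨j, hj⟩ := oMin_spec n
    have h1 := oMin_le n k
    have h2 : m ≤ oMin n := h.2 ⟨j, hj⟩
    have e : collatz^[k] n = m := hk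
    omega
  · rintro rfl
    refine ⟨?_, ?_⟩
    · obtain ⟨k, hk⟩ := oMin_spec n
      exact ⟨k, hk⟩
    · rintro v ⟨k, rfl⟩
      exact oMin_le n k

/-- orbit minimum in `M`, at least `r` elements of `A` on the trajectory -/
def MW (M A : Set ℕ) (r : ℕ) : Set ℕ := {n | oMin n ∈ M ∧ n ∈ Wr A r}

/-- a finite number of minima, a finite set of targets: the set is invariant -/
theorem MW_inv (M : Set ℕ) (K : ℕ) (hM : ∀ m ∈ M, m ≤ K) (S : Finset ℕ) (r : ℕ) :
    ∀ n, max K (S.sup id) < n → (n ∈ MW M (S : Set ℕ) r ↔ short n ∈ MW M (S : Set ℕ) r) := by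
  intro n hn
  have hnK : K < n := lt_of_le_of_lt (le_max_left _ _) hn
  have hnS : S.sup id < n := lt_of_le_of_lt (le_max_right _ _) hn
  have h1 : oMin n ∈ M ↔ oMin (short n) ∈ M := by
    have h := inv_short (B := {n | oMin n ∈ M}) (y := K) (fun n hn => ?_) n hnK
    · exact h
    · show oMin n ∈ M ↔ oMin (collatz n) ∈ M
      constructor
      · intro h
        have h2 := (minEq_inv (oMin n) n (lt_of_le_of_lt (hM _ h) hn)).1 ((mem_minEq _ _).2 rfl)
        rw [mem_minEq] at h2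
        rwa [h2]
      · intro h
        have h2 := (minEq_inv (oMin (collatz n)) n (lt_of_le_of_lt (hM _ h) hn)).2
          ((mem_minEq _ _).2 rfl)
        rw [mem_minEq] at h2
        rwa [h2]
  have h2 : orb n ∩ (S : Set ℕ) = orb (short n) ∩ (S : Set ℕ) := by
    ext a
    constructor
    · rintro ⟨⟨k, hk⟩, ha⟩
      refine ⟨?_, ha⟩
      cases k with
      | zero =>
        have e : n = a := hk
        have h3 : a ≤ S.sup id := le_sup (f := id) ha
        omega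
      | succ k =>
        rw [Function.iterate_succ_apply] at hk
        exact ⟨k, hk⟩
    · rintro ⟨⟨k, hk⟩, ha⟩
      refine ⟨⟨k + 1, ?_⟩, ha⟩
      rw [Function.iterate_succ_apply]
      exact hk
  have h3 : n ∈ Wr (S : Set ℕ) r ↔ short n ∈ Wr (S : Set ℕ) r := by
    show (r : ℕ∞) ≤ (orb n ∩ (S : Set ℕ)).encard ↔ (r : ℕ∞) ≤ (orb (short n) ∩ (S : Set ℕ)).encard
    rw [h2]
  exact and_congr h1 h3

/-- few integers have a large orbit minimum -/
theorem oMin_tight (mix : Mixing) (ε : ℝ) (hε : 0 < ε) :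
    ∃ K : ℕ, ∀ᶠ x : ℕ in atTop, D {n | K < oMin n} (x : ℝ) ≤ ε := by
  obtain ⟨d, hd0, hsum, hd⟩ := law mix
  have h1 := (hasSum_iff_tendsto_nat_of_nonneg hd0 1).1 hsum
  obtain ⟨K0, hK0⟩ := eventually_atTop.1 (h1.eventually_const_lt
    (show 1 - ε / 2 < (1 : ℝ) by linarith))
  refine ⟨K0, ?_⟩
  have h2 := hK0 (K0 + 1) (by omega)
  have h3 : Tendsto (fun x : ℕ => ∑ m ∈ range (K0 + 1), D (MinEq m) (x : ℝ)) atTop
      (𝓝 (∑ m ∈ range (K0 + 1), d m)) := by
    refine tendsto_finsetSum _ fun m _ => (hd m).congr fun x => ?_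
    unfold D
    rw [N_set]
    rfl
  filter_upwards [h3.eventually_const_lt (show (∑ m ∈ range (K0 + 1), d m) - ε / 2 <
    ∑ m ∈ range (K0 + 1), d m by linarith), eventually_ge_atTop 1] with x hx hx1
  have hx0 : (0 : ℝ) < x := by exact_mod_cast hx1
  have h4 := N_partition K0 (x : ℝ)
  rw [Nat.floor_natCast] at h4
  have h5 : ∑ m ∈ range (K0 + 1), D (MinEq m) (x : ℝ) + D (Above K0) (x : ℝ) = 1 := by
    unfold D
    rw [← sum_div, ← add_div, h4, div_self hx0.ne']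
  have h6 : {n | K0 < oMin n} ⊆ Above K0 := by
    intro n hn
    have h7 : n ∈ MinEq (oMin n) := (mem_minEq _ _).2 rfl
    exact (minEq_above h7).2 hn
  have h7 := D_mono' h6 x
  linarith

/-- finite subsets of the target suffice -/
theorem Wr_finite {A : Set ℕ} (hA3 : ∀ a ∈ A, ¬ 3 ∣ a) (r : ℕ) (ε : ℝ) (hε : 0 < ε) :
    ∃ S : Finset ℕ, (S : Set ℕ) ⊆ A ∧
      ∀ᶠ x : ℕ in atTop, D (Wr A r \ Wr (S : Set ℕ) r) (x : ℝ) ≤ ε := by
  rcases Nat.eq_zero_or_pos r with h0 | hr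
  · refine ⟨∅, by simp, Eventually.of_forall fun x => ?_⟩
    have h : Wr A r \ Wr ((∅ : Finset ℕ) : Set ℕ) r = ∅ := by
      rw [Set.sdiff_eq_empty]
      intro n _
      show (r : ℕ∞) ≤ _
      rw [h0]
      exact zero_le
    rw [h, D_eq_A]
    have : DF.A (∅ : Set ℕ) x = 0 := by
      rw [DF.A_eq_ncard]
      simp
    rw [this, zero_div]
    exact hε.le
  · obtain ⟨S, hSA, hS⟩ := DD_approx hA3 r hr (show 0 < ε / 3 by positivity)
    refine ⟨S, hSA, ?_⟩
    have h1 := (Wr_tendsto hA3 r hr).eventually_lt_const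
      (show DD A r < DD A r + ε / 3 by linarith)
    have h2 := (Wr_tendsto (fun a ha => hA3 a (hSA ha)) r hr).eventually_const_lt
      (show DD (S : Set ℕ) r - ε / 3 < DD (S : Set ℕ) r by linarith)
    filter_upwards [h1, h2] with x h3 h4
    have h5 : D (Wr A r \ Wr (S : Set ℕ) r) (x : ℝ) + D (Wr (S : Set ℕ) r) (x : ℝ) ≤
        D (Wr A r) (x : ℝ) := by
      rw [D_eq_A, D_eq_A, D_eq_A, ← add_div]
      refine div_le_div_of_nonneg_right ?_ (Nat.cast_nonneg x)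
      rw [A_eq, A_eq, A_eq]
      have h6 : (Icc 1 x).filter (fun n => n ∈ Wr A r \ Wr (S : Set ℕ) r) =
          (Icc 1 x).filter (fun n => n ∈ Wr A r) \
            (Icc 1 x).filter (fun n => n ∈ Wr (S : Set ℕ) r) := by
        ext n
        rw [Finset.mem_sdiff, mem_filter, mem_filter, mem_filter, Set.mem_sdiff]
        tauto
      have h9 : (Icc 1 x).filter (fun n => n ∈ Wr (S : Set ℕ) r) ⊆
          (Icc 1 x).filter (fun n => n ∈ Wr A r) := by
        intro n hn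
        rw [mem_filter] at hn ⊢
        exact ⟨hn.1, Wr_mono hSA r hn.2⟩
      have h7 : cN (Wr A r \ Wr (S : Set ℕ) r) x + cN (Wr (S : Set ℕ) r) x ≤ cN (Wr A r) x := by
        have e1 : cN (Wr A r \ Wr (S : Set ℕ) r) x =
            ((Icc 1 x).filter (fun n => n ∈ Wr A r \ Wr (S : Set ℕ) r)).card := by
          unfold cN; congr!
        have e2 : cN (Wr A r) x = ((Icc 1 x).filter (fun n => n ∈ Wr A r)).card := by
          unfold cN; congr!
        have e3 : cN (Wr (S : Set ℕ) r) x =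
            ((Icc 1 x).filter (fun n => n ∈ Wr (S : Set ℕ) r)).card := by unfold cN; congr!
        rw [e1, e2, e3, h6, card_sdiff_of_subset h9]
        have h10 := card_le_card h9
        omega
      exact_mod_cast h7
    rw [D_eq_A (Wr (S : Set ℕ) r), D_eq_A (Wr A r)] at h5
    linarith

/-- **all these sets are tame** -/
theorem MW_tame (mix : Mixing) (M : Set ℕ) {A : Set ℕ} (hA3 : ∀ a ∈ A, ¬ 3 ∣ a) (r : ℕ) :
    Tame (MW M A r) := by
  intro ε hε
  obtain ⟨K, hK⟩ := oMin_tight mix (ε / 2) (by positivity)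
  obtain ⟨S, hSA, hS⟩ := Wr_finite hA3 r (ε / 2) (by positivity)
  refine ⟨MW (M ∩ {m | m ≤ K}) (S : Set ℕ) r, max K (S.sup id), K,
    MW_inv _ K (fun m hm => hm.2) S r, fun n hn => hn.1.2, ?_⟩
  filter_upwards [hK, hS] with x h1 h2
  refine (D_mono' (B' := {n | K < oMin n} ∪ (Wr A r \ Wr (S : Set ℕ) r)) ?_ x).trans
    ((D_union' _ _ x).trans (by linarith))
  rintro n (⟨⟨h3, h4⟩, h5⟩ | ⟨⟨h3, h4⟩, h5⟩)
  · rcases lt_or_ge K (oMin n) with h | h
    · left; exact h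
    · right
      refine ⟨h4, fun h6 => h5 ⟨⟨h3, h⟩, h6⟩⟩
  · exact absurd ⟨h3.1, Wr_mono hSA r h4⟩ h5

/-- the density -/
noncomputable def dm (mix : Mixing) (A : Set ℕ) (r : ℕ) (M : Set ℕ) : ℝ :=
  if h : ∀ a ∈ A, ¬ 3 ∣ a then (Tame.density mix (MW_tame mix M h r)).choose else 0

theorem dm_spec (mix : Mixing) {A : Set ℕ} (hA3 : ∀ a ∈ A, ¬ 3 ∣ a) (r : ℕ) (M : Set ℕ) :
    Tendsto (fun x : ℕ => D (MW M A r) (x : ℝ)) atTop (𝓝 (dm mix A r M)) := by
  unfold dm
  rw [dif_pos hA3]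
  exact (Tame.density mix (MW_tame mix M hA3 r)).choose_spec

theorem dm_nonneg (mix : Mixing) {A : Set ℕ} (hA3 : ∀ a ∈ A, ¬ 3 ∣ a) (r : ℕ) (M : Set ℕ) :
    0 ≤ dm mix A r M :=
  ge_of_tendsto' (dm_spec mix hA3 r M) fun x => D_nonneg _ (Nat.cast_nonneg x)

theorem dm_tail (mix : Mixing) {A : Set ℕ} (hA3 : ∀ a ∈ A, ¬ 3 ∣ a) (r : ℕ) (ε : ℝ) (hε : 0 < ε) :
    ∃ K0 : ℕ, ∀ K ≥ K0, ∀ M : Set ℕ,
      dm mix A r M - ε ≤ dm mix A r (M ∩ {m | m ≤ K}) := by
  obtain ⟨K, hK⟩ := oMin_tight mix ε hε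
  refine ⟨K, fun K' hK' M => ?_⟩
  have h1 := (dm_spec mix hA3 r M).sub (dm_spec mix hA3 r (M ∩ {m | m ≤ K'}))
  have h2 : dm mix A r M - dm mix A r (M ∩ {m | m ≤ K'}) ≤ ε := by
    refine le_of_tendsto h1 ?_
    filter_upwards [hK] with x hx
    have h3 : D (MW M A r) (x : ℝ) ≤ D {n | K < oMin n} (x : ℝ) +
        D (MW (M ∩ {m | m ≤ K'}) A r) (x : ℝ) := by
      refine (D_mono' ?_ x).trans (D_union' _ _ x)
      rintro n ⟨h4, h5⟩
      rcases lt_or_ge K (oMin n) with h | h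
      · left; exact h
      · right; exact ⟨⟨h4, h.trans hK'⟩, h5⟩
    linarith
  linarith

theorem dm_add (mix : Mixing) {A : Set ℕ} (hA3 : ∀ a ∈ A, ¬ 3 ∣ a) (r : ℕ) (M : Set ℕ) (m : ℕ)
    (hm : m ∉ M) : dm mix A r (insert m M) = dm mix A r {m} + dm mix A r M := by
  have h1 := (dm_spec mix hA3 r {m}).add (dm_spec mix hA3 r M)
  refine tendsto_nhds_unique (dm_spec mix hA3 r (insert m M)) (h1.congr fun x => ?_)
  rw [D_eq_A, D_eq_A, D_eq_A, ← add_div, A_eq, A_eq, A_eq]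
  congr 1
  rw [← Nat.cast_add]
  congr 1
  unfold cN
  rw [← card_union_of_disjoint]
  · congr 1
    ext n
    rw [mem_union, mem_filter, mem_filter, mem_filter]
    constructor
    · rintro (⟨h2, h3, h4⟩ | ⟨h2, h3, h4⟩)
      · exact ⟨h2, Or.inl h3, h4⟩
      · exact ⟨h2, Or.inr h3, h4⟩
    · rintro ⟨h2, h3 | h3, h4⟩
      · exact Or.inl ⟨h2, h3, h4⟩
      · exact Or.inr ⟨h2, h3, h4⟩
  · rw [disjoint_left]
    intro n h2 h3
    rw [mem_filter] at h2 h3
    have h4 : oMin n = m := h2.2.1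
    have h5 : oMin n ∈ M := h3.2.1
    rw [h4] at h5
    exact hm h5

theorem dm_finset (mix : Mixing) {A : Set ℕ} (hA3 : ∀ a ∈ A, ¬ 3 ∣ a) (r : ℕ) (F : Finset ℕ) :
    dm mix A r (F : Set ℕ) = ∑ m ∈ F, dm mix A r {m} := by
  induction F using Finset.induction_on with
  | empty =>
    rw [sum_empty]
    refine tendsto_nhds_unique (dm_spec mix hA3 r _) (tendsto_const_nhds.congr fun x => ?_)
    have h : MW ((∅ : Finset ℕ) : Set ℕ) A r = ∅ := by
      ext n
      simp [MW]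
    rw [h, D_eq_A, DF.A_eq_ncard]
    simp
  | insert m F hm ih =>
    rw [coe_insert, dm_add mix hA3 r _ m (by simpa using hm), sum_insert hm, ih]

/-- **countable additivity** -/
theorem dm_hasSum (mix : Mixing) {A : Set ℕ} (hA3 : ∀ a ∈ A, ¬ 3 ∣ a) (r : ℕ) (M : Set ℕ) :
    HasSum (fun m : M => dm mix A r {(m : ℕ)}) (dm mix A r M) := by
  change HasSum ((fun m => dm mix A r {m}) ∘ ((↑) : M → ℕ)) _
  rw [hasSum_subtype_iff_indicator]
  have h0 : ∀ m, 0 ≤ M.indicator (fun m => dm mix A r {m}) m := fun m =>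
    Set.indicator_nonneg (fun m _ => dm_nonneg mix hA3 r _) m
  rw [hasSum_iff_tendsto_nat_of_nonneg h0]
  have hfin : ∀ K : ℕ, ∑ m ∈ range (K + 1), M.indicator (fun m => dm mix A r {m}) m =
      dm mix A r (M ∩ {m | m ≤ K}) := by
    intro K
    have h1 : M ∩ {m | m ≤ K} = (((range (K + 1)).filter (fun m => m ∈ M) : Finset ℕ) : Set ℕ) := by
      ext m
      rw [mem_coe, mem_filter, mem_range]
      constructor
      · rintro ⟨h, h'⟩
        have : m ≤ K := h'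
        exact ⟨by omega, h⟩
      · rintro ⟨h, h'⟩
        exact ⟨h', show m ≤ K by omega⟩
    rw [h1, dm_finset mix hA3, sum_filter]
    rfl
  have hmono : ∀ K : ℕ, dm mix A r (M ∩ {m | m ≤ K}) ≤ dm mix A r M := by
    intro K
    refine le_of_tendsto_of_tendsto' (dm_spec mix hA3 r _) (dm_spec mix hA3 r M) fun x => ?_
    exact D_mono' (B := MW (M ∩ {m | m ≤ K}) A r) (B' := MW M A r)
      (fun n hn => ⟨hn.1.1, hn.2⟩) x
  refine (tendsto_add_atTop_iff_nat 1).1 ?_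
  rw [Metric.tendsto_atTop]
  intro ε hε
  obtain ⟨K0, hK0⟩ := dm_tail mix hA3 r (ε / 2) (by positivity)
  refine ⟨K0, fun K hK => ?_⟩
  rw [hfin, Real.dist_eq, abs_lt]
  have h1 := hK0 K hK M
  have h2 := hmono K
  constructor <;> linarith

end GEN
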