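import Mathlib
import Pool.Agent.GEN.TJ3

/-!
# The joint law of trajectories and visits: assembly
-/

set_option autoImplicit false

namespace GEN

open Finset Pool.Agent.LibHelper3 ND Gau Filter Topology ProbabilityTheory TLW
open scoped Classical

/-- the first time at which the least term of the Collatz trajectory of `n` is attained -/
noncomputable def mTime (n : ℕ) : ℕ := sInf {k : ℕ | collatz^[k] n = oMin n}

theorem mTime_le_iff (n : ℕ) (r : ℝ) :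
    (mTime n : ℝ) ≤ r ↔ ∃ k : ℕ, (k : ℝ) ≤ r ∧ collatz^[k] n = oMin n := by
  constructor
  · intro h
    exact ⟨mTime n, h, Nat.sInf_mem (oMin_spec n)⟩
  · rintro ⟨k, hk, hk2⟩
    have h1 : mTime n ≤ k := Nat.sInf_le hk2
    have h2 : (mTime n : ℝ) ≤ k := by exact_mod_cast h1
    linarith

/-- heights and time bounded -/
def PathLe {L : ℕ} (t : Fin (L + 2) → ℝ) (z : Fin (L + 1) → ℝ) (n : ℕ) : Prop :=
  (∀ l : Fin L, Real.log
      (short^[⌊t l.castSucc.succ * (2 / Real.log (4 / 3) * Real.log n)⌋₊] n : ℕ) ≤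
    (1 - t l.castSucc.succ) * Real.log n +
      z l.castSucc * Real.sqrt (Real.log 3 ^ 2 / (2 * Real.log (4 / 3)) * Real.log n)) ∧
  (mTime n : ℝ) ≤ 3 / Real.log (4 / 3) * Real.log n +
    z (Fin.last L) * Real.sqrt (2 * Real.log 6 ^ 2 / Real.log (4 / 3) ^ 3 * Real.log n)

theorem pathLe_iff {L : ℕ} (t : Fin (L + 2) → ℝ) (z : Fin (L + 1) → ℝ) (n : ℕ) :
    PathLe t z n ↔ n ∈ Rgen t z := by
  have h43 : 0 < Real.log (4 / 3) := Real.log_pos (by norm_num)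
  have hmu : Gau.mu = Real.log (4 / 3) / 2 := rfl
  have hmu0 := Gau.mu_pos
  have hl3 := Gau.log_three_pos
  have hv0 : 0 ≤ Real.log (n : ℝ) := Real.log_natCast_nonneg n
  unfold PathLe Rgen
  rw [mTime_le_iff]
  refine and_congr ?_ ?_
  · refine forall_congr' fun l => ?_
    have e1 : t l.castSucc.succ * (2 / Real.log (4 / 3) * Real.log n) =
        t l.castSucc.succ * Real.log n / Gau.mu := by
      rw [hmu]; field_simp
    have e2 : Real.log 3 / (2 * Real.sqrt Gau.mu) * Real.sqrt (Real.log n) =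
        Real.sqrt (Real.log 3 ^ 2 / (2 * Real.log (4 / 3)) * Real.log n) := by
      have e3 : Real.log 3 ^ 2 / (2 * Real.log (4 / 3)) * Real.log n =
          (Real.log 3 / 2) ^ 2 * (Real.log n / Gau.mu) := by
        rw [hmu]; field_simp
      rw [e3, Real.sqrt_mul (by positivity), Real.sqrt_sq (by positivity),
        Real.sqrt_div hv0]
      have := Gau.sqrt_mu_pos
      field_simp
    rw [e1, ← e2, mul_assoc]
  · have e4 := Gau.threshold (Real.log n) (z (Fin.last L)) hv0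
    have e5 : 2 * Real.log 6 ^ 2 * Real.log n / Real.log (4 / 3) ^ 3 =
        2 * Real.log 6 ^ 2 / Real.log (4 / 3) ^ 3 * Real.log n := by ring
    rw [e5] at e4
    rw [e4]

/-- natural density -/
def Dens (P : ℕ → Prop) (δ : ℝ) : Prop :=
  Tendsto (fun x : ℕ => ({n : ℕ | 1 ≤ n ∧ n ≤ x ∧ P n}.ncard : ℝ) / x) atTop (𝓝 δ)

theorem dens_of_D {B : Set ℕ} {P : ℕ → Prop} {δ : ℝ} (hB : ∀ n, n ∈ B ↔ P n)
    (h : Tendsto (fun x : ℕ => D B (x : ℝ)) atTop (𝓝 δ)) : Dens P δ := by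
  refine h.congr fun x => ?_
  unfold D
  rw [N_set]
  congr 3
  ext n
  constructor
  · rintro ⟨h1, h2, h3⟩
    exact ⟨h1, h2, (hB n).1 h3⟩
  · rintro ⟨h1, h2, h3⟩
    exact ⟨h1, h2, (hB n).2 h3⟩

theorem visitNumber_def (A : Set ℕ) (n : ℕ) :
    visitNumber A n = {a ∈ A | ∃ k, short^[k] n = a}.encard := rfl

theorem mem_MW (M A : Set ℕ) (r n : ℕ) :
    n ∈ MW M A r ↔ oMin n ∈ M ∧ (r : ℕ∞) ≤ visitNumber A n := by
  unfold MW
  rw [← mem_Wr]
  rfl

theorem dm_univ (mix : Mixing) {A : Set ℕ} (hA3 : ∀ a ∈ A, ¬ 3 ∣ a) (r : ℕ) (hr : 1 ≤ r) :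
    dm mix A r Set.univ = DD A r := by
  refine tendsto_nhds_unique (dm_spec mix hA3 r _) ((Wr_tendsto hA3 r hr).congr fun x => ?_)
  rw [D_eq_A]
  congr 2
  ext n
  exact ⟨fun h => ⟨trivial, h⟩, fun h => h.2⟩

/-- **Joint law.** -/
theorem joint_law : ∃ (d : ℕ → ℝ) (c C : ℝ), 0 < c ∧
    (∀ a : ℕ, Dens (fun n => ∃ k, short^[k] n = a) (d a)) ∧
    (∀ a : ℕ, ¬ 3 ∣ a → c / a ≤ d a) ∧
    ∀ A : Set ℕ, (∀ a ∈ A, ¬ 3 ∣ a) → ∃ D : ℕ → ℕ → ℝ,
      (∀ m r, 0 ≤ D m r) ∧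
      (∀ (M : Set ℕ) (r L : ℕ) (t : Fin (L + 2) → ℝ) (z : Fin (L + 1) → ℝ),
        StrictMono t → t 0 = 0 → t (Fin.last (L + 1)) = 1 →
        Dens (fun n => oMin n ∈ M ∧ (r : ℕ∞) ≤ visitNumber A n ∧ PathLe t z n)
          ((∑' m : M, D m r) * BM L t z)) ∧
      HasSum (fun m => D m 0) 1 ∧
      (∀ m, 0 < D m 0 ↔ ¬ 3 ∣ m ∧ oMin m = m) ∧
      (∀ (M : Set ℕ) (r q b : ℕ), 1 ≤ q →
        Dens (fun n => n ≡ b [MOD q] ∧ oMin n ∈ M ∧ (r : ℕ∞) ≤ visitNumber A n)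
          ((∑' m : M, D m r) / q)) ∧
      (∑' r : ℕ, ENNReal.ofReal (∑' m, D m (r + 1)) = ∑' a : A, ENNReal.ofReal (d a)) ∧
      (∀ (r : ℕ) (f : ℕ → ℝ), 1 ≤ r → Tendsto f atTop atTop →
        Dens (fun n => (r : ℕ∞) ≤ visitNumber A n ∧
          visitNumber {a ∈ A | (a : ℝ) < f n} n < r) 0) ∧
      (∀ ρ : ℝ, (∃ᶠ x : ℕ in atTop, ρ * x ≤ ({a : ℕ | 1 ≤ a ∧ a ≤ x ∧ a ∈ A}.ncard : ℝ)) →
        ∀ r : ℕ, ρ ≤ ∑' m, D m r) ∧
      (∀ r : ℕ, 1 ≤ r →
        Summable (fun n : {n ∈ A | visitNumber A n ≤ r} => (1 : ℝ) / (n : ℕ)) ∧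
        ∑' n : {n ∈ A | visitNumber A n ≤ r}, (1 : ℝ) / (n : ℕ) ≤ C * r) := by
  have mix := Pool.Agent.LibHelper3.Mix.mixing
  obtain ⟨d, c, C, hc, hd, hlow, hA⟩ := target_sets
  refine ⟨d, c, C, hc, hd, hlow, fun A hA3 => ?_⟩
  obtain ⟨D', h1, h2, h3, h4, h5⟩ := hA A hA3
  have hsum := fun (M : Set ℕ) (r : ℕ) => dm_hasSum mix hA3 r M
  have hD' : ∀ r, 1 ≤ r → D' r = dm mix A r Set.univ := by
    intro r hr
    rw [dm_univ mix hA3 r hr]
    have h6 := h1 r 1 0 hr le_rfl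
    rw [Nat.cast_one, div_one] at h6
    refine tendsto_nhds_unique h6 (tendsto_of_A (B := Wr A r) (fun n => ?_)
      (Wr_tendsto hA3 r hr))
    rw [mem_Wr]
    exact ⟨fun h => ⟨Nat.modEq_one, h⟩, fun h => h.2⟩
  have htot : ∀ r, HasSum (fun m => dm mix A r {m}) (dm mix A r Set.univ) := by
    intro r
    have h6 := hsum Set.univ r
    exact (Equiv.Set.univ ℕ).hasSum_iff (f := fun m => dm mix A r {m}) |>.1 h6
  have h0 : dm mix A 0 Set.univ = 1 := by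
    refine tendsto_nhds_unique (dm_spec mix hA3 0 _)
      (tendsto_const_nhds.congr' ?_)
    filter_upwards [eventually_ge_atTop 1] with x hx
    have hx0 : (0 : ℝ) < x := by exact_mod_cast hx
    have h6 : MW Set.univ A 0 = Set.univ := by
      ext n
      exact ⟨fun _ => trivial, fun _ => ⟨trivial, show ((0 : ℕ) : ℕ∞) ≤ _ by simp⟩⟩
    rw [h6, D_eq_A, DF.A_eq_ncard]
    have h7 : {n : ℕ | 1 ≤ n ∧ n ≤ x ∧ n ∈ (Set.univ : Set ℕ)} = ((Icc 1 x : Finset ℕ) : Set ℕ) := by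
      ext n
      simp
    rw [h7, Set.ncard_coe_finset, Nat.card_Icc, Nat.add_sub_cancel, div_self hx0.ne']
  refine ⟨fun m r => dm mix A r {m}, fun m r => dm_nonneg mix hA3 r _, ?_, ?_, ?_, ?_, ?_, ?_, ?_,
    h5⟩
  · intro M r L t z ht ht0 ht1
    rw [(hsum M r).tsum_eq]
    refine dens_of_D (B := MW M A r ∩ Rgen t z) (fun n => ?_)
      (Tame.joint mix (MW_tame mix M hA3 r) (dm_spec mix hA3 r M) ht ht0 ht1 z)
    rw [Set.mem_inter_iff, mem_MW, pathLe_iff, and_assoc]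
  · have h6 := htot 0
    rwa [h0] at h6
  · intro m
    have h6 : Tendsto (fun x : ℕ =>
        ({n : ℕ | 1 ≤ n ∧ n ≤ x ∧ IsLeast (Set.range fun k => collatz^[k] n) m}.ncard : ℝ) / x)
        atTop (𝓝 (dm mix A 0 {m})) := by
      refine dens_of_D (B := MW {m} A 0) (fun n => ?_) (dm_spec mix hA3 0 {m})
      rw [mem_MW]
      have h7 := mem_minEq n m
      constructor
      · intro h
        exact h7.2 h.1
      · intro h
        exact ⟨h7.1 h, by simp⟩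
    have h8 := Gau.minPos m _ h6
    show 0 < dm mix A 0 {m} ↔ _
    rw [h8]
    refine and_congr_right fun _ => ?_
    constructor
    · intro h
      have e1 : oMin m ≤ m := oMin_le m 0
      obtain ⟨k, hk⟩ := oMin_spec m
      have := h k
      omega
    · intro h k
      have := oMin_le m k
      omega
  · intro M r q b hq
    rw [(hsum M r).tsum_eq]
    refine dens_of_D (B := cls (MW M A r) q b) (fun n => ?_)
      (Tame.mod mix (MW_tame mix M hA3 r) (dm_spec mix hA3 r M) q b hq)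
    show n ∈ MW M A r ∧ n % q = b % q ↔ _
    rw [mem_MW]
    exact ⟨fun h => ⟨h.2, h.1⟩, fun h => ⟨h.2, h.1⟩⟩
  · rw [← h2]
    refine tsum_congr fun r => ?_
    rw [(htot (r + 1)).tsum_eq, hD' (r + 1) (by omega)]
  · exact fun r f hr hf => h3 r f hr hf
  · intro ρ hρ r
    rw [(htot r).tsum_eq]
    rcases Nat.eq_zero_or_pos r with hr | hr
    · rw [hr, h0]
      obtain ⟨x, hx, hx1⟩ := (hρ.and_eventually (eventually_ge_atTop 1)).exists
      have hx0 : (0 : ℝ) < x := by exact_mod_cast hx1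
      have h7 : {a : ℕ | 1 ≤ a ∧ a ≤ x ∧ a ∈ A} ⊆ ((Icc 1 x : Finset ℕ) : Set ℕ) := by
        intro n hn
        rw [mem_coe, mem_Icc]
        exact ⟨hn.1, hn.2.1⟩
      have h8 := Set.ncard_le_ncard h7 (finite_toSet _)
      rw [Set.ncard_coe_finset, Nat.card_Icc, Nat.add_sub_cancel] at h8
      have h9 : (({a : ℕ | 1 ≤ a ∧ a ≤ x ∧ a ∈ A}.ncard : ℕ) : ℝ) ≤ x := by exact_mod_cast h8
      have h10 : ρ * x ≤ 1 * x := by linarith
      exact le_of_mul_le_mul_right h10 hx0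
    · rw [← hD' r hr]
      exact (h4 ρ hρ).1 r hr

end GEN
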