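import Mathlib
import Pool.Agent.GEN.TJ4

/-!
# Joint law of complete Collatz trajectories and of the visits to an arbitrary set

For `n ≥ 1` let `orbitMin n` be the least term of its Collatz trajectory and `minTime n` the first
time at which it is attained (for `n` reaching `1` these are `1` and the total stopping time), let
`short` be the map `n ↦ n / 2` (`n` even), `n ↦ (3 n + 1) / 2` (`n` odd), let `A` be ANY set of
integers not divisible by `3` and `N(n)` the number of elements of `A` on the trajectory of `n`.

With respect to natural density the pair (orbit minimum, `N`), the whole path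

`t ↦ (log (short^[⌊t (2 / log (4 / 3)) log n⌋] n) - (1 - t) log n) / sqrt (v log n)`, `0 < t < 1`,

`v = (log 3) ^ 2 / (2 log (4 / 3))`, and the normalised time
`(minTime n - u log n) / sqrt (s log n)`, `u = 3 / log (4 / 3)`,
`s = 2 (log 6) ^ 2 / (log (4 / 3)) ^ 3`, converge jointly in law to
`((M, V), (B t)_{0 < t < 1}, B 1)` with a standard Brownian motion `B` and an independent pair
`(M, V)`.

Outline of the proof:

* `TLW`: transfer principle for families of sets indexed by the numbers of all and of odd steps
  (superpolynomial fine scale mixing of the offsets of parity words), composition of many steps with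
  constraints at intermediate times, multidimensional central limit theorem for random parity words;
* `GEN.traj_gen`: joint law of path, time and membership in a set which is invariant under `short`
  beyond some point and whose elements have a bounded orbit minimum;
* `GEN.DD_approx`, `GEN.MW_tame`: the event `orbitMin n ∈ M`, `N(n) ≥ r` is approximated by such sets,
  namely by those for finite subsets of `M` and `A`. This rests on the fact that a set of integers
  prime to `3` of positive upper density contains finite sets without relations between their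
  elements whose predecessors have a density bounded from below;
* `GEN.Tame.joint`, `GEN.dm_hasSum`: passage to the limit.
-/

set_option autoImplicit false

namespace Pool.Agent.GENPreview.JointLaw

open Pool.Agent.LibHelper3 Filter Topology

/-- the `n ≥ 1` with `P n` have natural density `δ` -/
def HasDensity (P : ℕ → Prop) (δ : ℝ) : Prop :=
  Tendsto (fun x : ℕ => ({n : ℕ | 1 ≤ n ∧ n ≤ x ∧ P n}.ncard : ℝ) / x) atTop (𝓝 δ)

/-- the least term of the Collatz trajectory of `n` -/
noncomputable def orbitMin (n : ℕ) : ℕ := sInf {m : ℕ | ∃ k, collatz^[k] n = m}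

/-- the first time at which the least term of the Collatz trajectory of `n` is attained -/
noncomputable def minTime (n : ℕ) : ℕ := sInf {k : ℕ | collatz^[k] n = orbitMin n}

/-- the number of elements of `A` on the trajectory of `n` under the shortcut Collatz map -/
noncomputable def visitNumber (A : Set ℕ) (n : ℕ) : ℕ∞ := {a ∈ A | ∃ k, short^[k] n = a}.encard

/-- the probability that `B (t (i + 1)) ≤ z i` for `i ≤ L`, `B` a standard Brownian motion and
`0 = t 0 < t 1 < … < t (L + 1)`: `B (t (i + 1))` is the sum of the independent centred Gaussian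
variables `g 0, …, g i`, the variance of `g l` is `t (l + 1) - t l` -/
noncomputable def brownian {L : ℕ} (t : Fin (L + 2) → ℝ) (z : Fin (L + 1) → ℝ) : ℝ :=
  (MeasureTheory.Measure.pi fun l : Fin (L + 1) =>
    ProbabilityTheory.gaussianReal 0 (Real.toNNReal (t l.succ - t l.castSucc))).real
      {g | ∀ i, ∑ l ∈ Finset.Iic i, g l ≤ z i}

/-- `log (short^[k] n) ≤ (1 - t (l + 1)) log n + z l sqrt (v log n)` for
`k = ⌊t (l + 1) (2 / log (4 / 3)) log n⌋` and `l < L`, and
`minTime n ≤ u log n + z L sqrt (s log n)`, where `v = (log 3) ^ 2 / (2 log (4 / 3))`,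
`u = 3 / log (4 / 3)`, `s = 2 (log 6) ^ 2 / (log (4 / 3)) ^ 3` -/
def PathBelow {L : ℕ} (t : Fin (L + 2) → ℝ) (z : Fin (L + 1) → ℝ) (n : ℕ) : Prop :=
  (∀ l : Fin L, Real.log
      (short^[⌊t l.castSucc.succ * (2 / Real.log (4 / 3) * Real.log n)⌋₊] n : ℕ) ≤
    (1 - t l.castSucc.succ) * Real.log n +
      z l.castSucc * Real.sqrt (Real.log 3 ^ 2 / (2 * Real.log (4 / 3)) * Real.log n)) ∧
  (minTime n : ℝ) ≤ 3 / Real.log (4 / 3) * Real.log n +
    z (Fin.last L) * Real.sqrt (2 * Real.log 6 ^ 2 / Real.log (4 / 3) ^ 3 * Real.log n)

/-- **Theorem.** For EVERY set `A` of integers not divisible by `3` there are `D m r ≥ 0` such that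
for every set `M`, all `r`, `L`, `0 = t 0 < t 1 < … < t (L + 1) = 1` and real `z 0, …, z L` the
set of the `n ≥ 1` with `orbitMin n ∈ M`, at least `r` elements of `A` on the trajectory and
`PathBelow t z n` has a natural density, the product of the sum of the `D m r`, `m ∈ M`, and of the
probability that a Brownian motion is at most `z i` at time `t (i + 1)` for all `i ≤ L`. The sum of
the `D m 0` is `1`; `D m 0 > 0` if and only if `3` does not divide `m` and `m` is the least term of
its own trajectory; the sum of the `D m r` over `m` is at least the upper density of `A`, for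
every `r`. -/
theorem result : ∀ A : Set ℕ, (∀ a ∈ A, ¬ 3 ∣ a) → ∃ D : ℕ → ℕ → ℝ,
    (∀ m r, 0 ≤ D m r) ∧ HasSum (fun m => D m 0) 1 ∧
    (∀ m, 0 < D m 0 ↔ ¬ 3 ∣ m ∧ orbitMin m = m) ∧
    (∀ ρ : ℝ, (∃ᶠ x : ℕ in atTop, ρ * x ≤ ({a : ℕ | 1 ≤ a ∧ a ≤ x ∧ a ∈ A}.ncard : ℝ)) →
      ∀ r : ℕ, ρ ≤ ∑' m, D m r) ∧
    ∀ (M : Set ℕ) (r L : ℕ) (t : Fin (L + 2) → ℝ) (z : Fin (L + 1) → ℝ),
      StrictMono t → t 0 = 0 → t (Fin.last (L + 1)) = 1 →
      HasDensity (fun n => orbitMin n ∈ M ∧ r ≤ visitNumber A n ∧ PathBelow t z n)
        ((∑' m : M, D m r) * brownian t z) := by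
  intro A hA
  obtain ⟨d, c, C, -, -, -, h⟩ := GEN.joint_law
  obtain ⟨D, h1, h2, h3, h4, -, -, -, h5, -⟩ := h A hA
  exact ⟨D, h1, h3, h4, h5, h2⟩

end Pool.Agent.GENPreview.JointLaw
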