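import Mathlib
import Pool.Agent.GEN.DE8

/-!
# Visits of Collatz trajectories to an arbitrary set

Let `S` (`short`) be the map `n ↦ n / 2` (`n` even), `n ↦ (3 n + 1) / 2` (`n` odd), let `A` be ANY set
of integers not divisible by `3` and `N(n)` the number of elements of `A` on the trajectory
`n, S(n), S²(n), …`. We prove that `N` has a limit distribution with respect to natural density,
uniformly in residue classes; that its mean is the sum of the densities `d(a)` of the predecessor sets
of the elements of `A`; that almost all trajectories which meet `A` (`r` times) do so at almost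
bounded height (for `A` the set of all integers prime to `3` and `r = 1` this is Tao's theorem, with
natural density); that `N(n) ≥ r` has at least the upper density of `A`, for every `r`; and that
almost all elements of `A` have more than `r` elements of `A` on their trajectory.

Proof. (1) `Lib_helper3.Mix`, `Lib_helper62.ND`: a set invariant under `S` beyond some point has a
natural density; so for finite `A` everything exists, and `Lib_helper3.PR` gives residue classes.
(2) `Lib_helper1.DF`: for `y` large almost all `s ∈ (y, (1 + θ) y]` prime to `3` never come back to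
this interval, the predecessor sets of these `s` are disjoint and have density at least `c / s`. So a
set of positive upper density contains finite antichains whose predecessors have a density bounded
from below (`GEN.window`). (3) Exhaustion (`GEN.exhaust`): let `V(A)` be the set of the `n` whose
trajectory meets `A`; take a finite `S ⊆ A` such that the density of `V(S)` is almost maximal. If
`V(A)` without `V(S)` had positive upper density, (2) would give a finite antichain in it (away from
the trajectories of the elements of `S`), so a finite `S' ⊆ A` with a larger density of `V(S')`. The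
multiples of `3` are treated by induction (`GEN.mult_three`). (4) `N(n) ≥ r` if and only if
the trajectory of `n` meets the set of the `a ∈ A` with `N(a) ≥ r` (`GEN.visits`).
-/

set_option autoImplicit false

namespace Pool.Agent.GENPreview.TargetSets

open Pool.Agent.LibHelper3 Filter Topology

/-- the number of elements of `A` on the trajectory of `n` under the shortcut Collatz map -/
noncomputable def visitNumber (A : Set ℕ) (n : ℕ) : ℕ∞ := {a ∈ A | ∃ k, short^[k] n = a}.encard

/-- **Theorem.** There are `d : ℕ → ℝ`, `c > 0` and `C` such that for every `a` the set of the `n ≥ 1`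
whose trajectory contains `a` has natural density `d a`, `d a ≥ c / a` if `3` does not divide `a`, and
for EVERY set `A` of integers not divisible by `3` there is a sequence `D` such that, `N(n)` being the
number of elements of `A` on the trajectory of `n`,
(1) for `r, q ≥ 1` and every `b` the set of the `n ≡ b` modulo `q` with `N(n) ≥ r` has natural density
`D r / q`;
(2) the sum of the `D r`, `r ≥ 1`, is the sum of the `d a`, `a ∈ A` (both may be infinite);
(3) for every `f : ℕ → ℝ` which tends to infinity and `r ≥ 1`, the set of the `n` with `N(n) ≥ r` and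
less than `r` elements of `A` below `f n` on the trajectory has natural density zero;
(4) if the upper density of `A` is at least `ρ` then `D r ≥ ρ` for all `r ≥ 1`, and if moreover
`ρ > 0` then `A` contains `s_0 < s_1 < …` such that the trajectory of `s_(i+1)` contains `s_i`;
(5) for `r ≥ 1` the sum of `1 / n` over the `n ∈ A` with `N(n) ≤ r` is at most `C r`. -/
theorem result : ∃ (d : ℕ → ℝ) (c C : ℝ), 0 < c ∧
    (∀ a : ℕ, Tendsto (fun x : ℕ =>
      ({n : ℕ | 1 ≤ n ∧ n ≤ x ∧ ∃ k, short^[k] n = a}.ncard : ℝ) / x) atTop (𝓝 (d a))) ∧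
    (∀ a : ℕ, ¬ 3 ∣ a → c / a ≤ d a) ∧
    ∀ A : Set ℕ, (∀ a ∈ A, ¬ 3 ∣ a) → ∃ D : ℕ → ℝ,
      (∀ r q b : ℕ, 1 ≤ r → 1 ≤ q → Tendsto (fun x : ℕ =>
        ({n : ℕ | 1 ≤ n ∧ n ≤ x ∧ n ≡ b [MOD q] ∧ (r : ℕ∞) ≤ visitNumber A n}.ncard : ℝ) / x)
        atTop (𝓝 (D r / q))) ∧
      (∑' r : ℕ, ENNReal.ofReal (D (r + 1)) = ∑' a : A, ENNReal.ofReal (d a)) ∧
      (∀ (r : ℕ) (f : ℕ → ℝ), 1 ≤ r → Tendsto f atTop atTop → Tendsto (fun x : ℕ =>
        ({n : ℕ | 1 ≤ n ∧ n ≤ x ∧ (r : ℕ∞) ≤ visitNumber A n ∧
          visitNumber {a ∈ A | (a : ℝ) < f n} n < r}.ncard : ℝ) / x) atTop (𝓝 0)) ∧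
      (∀ ρ : ℝ, (∃ᶠ x : ℕ in atTop, ρ * x ≤ ({a : ℕ | 1 ≤ a ∧ a ≤ x ∧ a ∈ A}.ncard : ℝ)) →
        (∀ r : ℕ, 1 ≤ r → ρ ≤ D r) ∧
        (0 < ρ → ∃ s : ℕ → ℕ, StrictMono s ∧ (∀ i, s i ∈ A) ∧
          ∀ i, ∃ k, short^[k] (s (i + 1)) = s i)) ∧
      (∀ r : ℕ, 1 ≤ r →
        Summable (fun n : {n ∈ A | visitNumber A n ≤ r} => (1 : ℝ) / (n : ℕ)) ∧
        ∑' n : {n ∈ A | visitNumber A n ≤ r}, (1 : ℝ) / (n : ℕ) ≤ C * r) :=
  GEN.target_sets

end Pool.Agent.GENPreview.TargetSets
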